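import Pool.Agent.L7h26.BW.Base

/-!
# Project BW: Bombieri-Vinogradov in almost all windows (`S_CHS → S_BVG`)
-/

set_option autoImplicit false

namespace Pool.Agent.L7h26.BW

open Finset Filter MeasureTheory
open Pool.Agent.L7h88.BW

/-- the sum over the primes of the window -/
noncomputable def Tn (M : ℕ) (u κ : ℝ) {q : ℕ} (χ : DirichletCharacter ℂ q) : ℂ :=
  ∑ n ∈ win M u κ, if n.Prime then ((Real.log n : ℝ) : ℂ) * χ (n : ZMod q) else 0

/-- the Chebyshev weight of the window -/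
noncomputable def thw (M : ℕ) (u κ : ℝ) : ℝ := ∑ n ∈ win M u κ, if n.Prime then Real.log n else 0

/-- the proper prime powers of the window -/
noncomputable def ppw (M : ℕ) (u κ : ℝ) : ℝ :=
  ∑ n ∈ win M u κ, if n.Prime then 0 else ArithmeticFunction.vonMangoldt n

lemma T_le {M : ℕ} {u κ : ℝ} (_hκ : 0 ≤ κ) {q : ℕ} (χ : DirichletCharacter ℂ q) :
    ‖Tn M u κ χ‖ ≤ Real.exp u * ‖WM χ κ M u‖ + (κ * thw M u κ + ppw M u κ) := by
  have h1 : Tn M u κ χ = ((Real.exp u : ℝ) : ℂ) * WM χ κ M u + ∑ n ∈ win M u κ,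
      ((if n.Prime then ((Real.log n : ℝ) : ℂ) * χ (n : ZMod q) else 0) -
        ((Real.exp u : ℝ) : ℂ) * (((ArithmeticFunction.vonMangoldt n / n : ℝ) : ℂ) * χ (n : ZMod q))) := by
    unfold Tn WM
    rw [sum_sub_distrib, mul_sum]
    ring
  rw [h1]
  refine (norm_add_le _ _).trans ?_
  rw [norm_mul, Complex.norm_real, Real.norm_of_nonneg (Real.exp_pos _).le]
  refine add_le_add le_rfl ?_
  refine (norm_sum_le _ _).trans ?_
  unfold thw ppw
  rw [mul_sum, ← sum_add_distrib]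
  refine sum_le_sum fun n hn => ?_
  rw [mem_win] at hn
  obtain ⟨⟨hn1, _⟩, hu, hu'⟩ := hn
  have hn0 : (0 : ℝ) < n := by exact_mod_cast hn1
  have h2 : Real.exp u < n := (Real.lt_log_iff_exp_lt hn0).1 hu
  have h3 : (n : ℝ) ≤ Real.exp (u + κ) := (Real.log_le_iff_le_exp hn0).1 hu'
  have hlog : 0 ≤ Real.log n := Real.log_nonneg (by exact_mod_cast hn1)
  have hχ : ‖χ (n : ZMod q)‖ ≤ 1 := χ.norm_le_one _
  have h4 : Real.exp u / n ≤ 1 := (div_le_one hn0).2 h2.le
  have h5 : 1 - κ ≤ Real.exp u / n := by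
    have h6 : 1 - κ ≤ Real.exp (-κ) := by linarith [Real.add_one_le_exp (-κ)]
    have h7 : Real.exp (-κ) * n ≤ Real.exp u := by
      calc Real.exp (-κ) * n ≤ Real.exp (-κ) * Real.exp (u + κ) :=
            mul_le_mul_of_nonneg_left h3 (Real.exp_pos _).le
        _ = Real.exp u := by rw [← Real.exp_add]; congr 1; ring
    exact h6.trans ((le_div_iff₀ hn0).2 h7)
  by_cases hp : n.Prime
  · rw [if_pos hp, if_pos hp, if_pos hp, ArithmeticFunction.vonMangoldt_apply_prime hp, add_zero]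
    have h6 : ((Real.log n : ℝ) : ℂ) * χ (n : ZMod q) -
        ((Real.exp u : ℝ) : ℂ) * (((Real.log n / n : ℝ) : ℂ) * χ (n : ZMod q)) =
        ((Real.log n * (1 - Real.exp u / n) : ℝ) : ℂ) * χ (n : ZMod q) := by
      push_cast; ring
    rw [h6, norm_mul, Complex.norm_real,
      Real.norm_of_nonneg (mul_nonneg hlog (by linarith))]
    calc Real.log n * (1 - Real.exp u / n) * ‖χ (n : ZMod q)‖
        ≤ Real.log n * (1 - Real.exp u / n) * 1 :=
          mul_le_mul_of_nonneg_left hχ (mul_nonneg hlog (by linarith))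
      _ ≤ κ * Real.log n := by
          rw [mul_one, mul_comm]
          exact mul_le_mul_of_nonneg_right (by linarith) hlog
  · rw [if_neg hp, if_neg hp, if_neg hp, mul_zero, zero_add, zero_sub, norm_neg, norm_mul,
      Complex.norm_real, norm_mul, Complex.norm_real, Real.norm_of_nonneg (Real.exp_pos _).le,
      Real.norm_of_nonneg (div_nonneg ArithmeticFunction.vonMangoldt_nonneg hn0.le)]
    have hΛ : 0 ≤ ArithmeticFunction.vonMangoldt n := ArithmeticFunction.vonMangoldt_nonneg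
    calc Real.exp u * (ArithmeticFunction.vonMangoldt n / n * ‖χ (n : ZMod q)‖)
        ≤ Real.exp u * (ArithmeticFunction.vonMangoldt n / n * 1) := by gcongr
      _ = ArithmeticFunction.vonMangoldt n * (Real.exp u / n) := by ring
      _ ≤ ArithmeticFunction.vonMangoldt n * 1 := mul_le_mul_of_nonneg_left h4 hΛ
      _ = _ := mul_one _

/-- primes of the window are coprime to small moduli -/
lemma cop {M : ℕ} {u κ : ℝ} {q n : ℕ} (hq : 1 ≤ q) (hqu : (q : ℝ) ≤ Real.exp u)
    (hn : n ∈ win M u κ) (hp : n.Prime) : n.Coprime q := by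
  rw [mem_win] at hn
  have hn0 : (0 : ℝ) < n := by exact_mod_cast hn.1.1
  have h2 : Real.exp u < n := (Real.lt_log_iff_exp_lt hn0).1 hn.2.1
  have h3 : q < n := by exact_mod_cast hqu.trans_lt h2
  refine (Nat.Prime.coprime_iff_not_dvd hp).2 fun h => ?_
  have := Nat.le_of_dvd hq h
  omega

open Classical in
lemma disc1 {M : ℕ} {u κ : ℝ} (hM : Real.exp (u + κ) ≤ M) {q : ℕ} [NeZero q] (hq : 1 ≤ q)
    (hqu : (q : ℝ) ≤ Real.exp u) {a : ℕ} (ha : a.Coprime q) :
    |th u κ q a - th u κ 1 0 / (Nat.totient q : ℝ)| ≤ (1 / (Nat.totient q : ℝ)) *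
      ∑ χ ∈ (univ : Finset (DirichletCharacter ℂ q)).filter (fun χ => χ ≠ 1), ‖Tn M u κ χ‖ := by
  have key : ((th u κ q a - th u κ 1 0 / (Nat.totient q : ℝ) : ℝ) : ℂ) = (1 / (Nat.totient q : ℂ)) *
      ∑ χ ∈ (univ : Finset (DirichletCharacter ℂ q)).filter (fun χ => χ ≠ 1),
        χ ((a : ZMod q)⁻¹) * Tn M u κ χ := by
    have h1 : th u κ q a - th u κ 1 0 / (Nat.totient q : ℝ) = ∑ n ∈ win M u κ,
        if n.Prime then Real.log n * ((if n ≡ a [MOD q] then (1 : ℝ) else 0) -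
          (if n.Coprime q then (1 : ℝ) / (Nat.totient q : ℝ) else 0)) else 0 := by
      rw [th_eq hM, th_one hM, sum_div, ← sum_sub_distrib]
      refine sum_congr rfl fun n hn => ?_
      by_cases hp : n.Prime
      · rw [if_pos hp, if_pos hp, if_pos hp, if_pos (cop hq hqu hn hp)]
        split_ifs <;> ring
      · rw [if_neg hp, if_neg hp, if_neg hp]; ring
    rw [h1, Complex.ofReal_sum]
    unfold Tn
    have h2 : ∀ n ∈ win M u κ, ((if n.Prime then Real.log n * ((if n ≡ a [MOD q] then (1 : ℝ) else 0) -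
          (if n.Coprime q then (1 : ℝ) / (Nat.totient q : ℝ) else 0)) else 0 : ℝ) : ℂ) =
        ∑ χ ∈ (univ : Finset (DirichletCharacter ℂ q)).filter (fun χ => χ ≠ 1),
          (1 / (Nat.totient q : ℂ)) * (χ ((a : ZMod q)⁻¹) *
            (if n.Prime then ((Real.log n : ℝ) : ℂ) * χ (n : ZMod q) else 0)) := by
      intro n _
      by_cases hp : n.Prime
      · rw [if_pos hp, Complex.ofReal_mul, Pool.Agent.Helper112.BLB.bracket q a ha n, mul_sum, mul_sum]
        refine sum_congr rfl fun χ _ => ?_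
        rw [if_pos hp]
        ring
      · rw [if_neg hp]
        simp [hp]
    rw [sum_congr rfl h2, sum_comm, mul_sum]
    refine sum_congr rfl fun χ _ => ?_
    rw [mul_sum, mul_sum]
  rw [← Real.norm_eq_abs, ← Complex.norm_real, key, norm_mul]
  have h1 : ‖(1 / (Nat.totient q : ℂ))‖ = 1 / (Nat.totient q : ℝ) := by
    rw [norm_div, norm_one, Complex.norm_natCast]
  rw [h1]
  refine mul_le_mul_of_nonneg_left ?_ (by positivity)
  refine (norm_sum_le _ _).trans (sum_le_sum fun χ _ => ?_)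
  rw [norm_mul]
  exact mul_le_of_le_one_left (norm_nonneg _) (χ.norm_le_one _)

open Classical in
lemma disc2 {M : ℕ} {u κ : ℝ} (hM : Real.exp (u + κ) ≤ M) {q : ℕ} [NeZero q] (hq : 1 ≤ q)
    (hqu : (q : ℝ) ≤ Real.exp u) {a : ℕ} (ha : a.Coprime q) :
    |th u κ q a - th u κ 1 0 / (Nat.totient q : ℝ)| ≤ (1 / (Nat.totient q : ℝ)) *
      ∑ f ∈ q.divisors.filter (fun f => f ≠ 1), ∑ ψ ∈ prm f (fun _ => True), ‖Tn M u κ ψ‖ := by
  refine (disc1 hM hq hqu ha).trans (mul_le_mul_of_nonneg_left ?_ (by positivity))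
  have h1 := Pool.Agent.Helper112.BLB.step2 q (fun χ => ‖Tn M u κ χ‖) (fun _ => norm_nonneg _)
    (fun f ψ => ‖Tn M u κ ψ‖) (by
      intro f h ψ
      refine le_of_eq ?_
      show ‖Tn M u κ (DirichletCharacter.changeLevel h ψ)‖ = ‖Tn M u κ ψ‖
      congr 1
      unfold Tn
      refine sum_congr rfl fun n hn => ?_
      by_cases hp : n.Prime
      · rw [if_pos hp, if_pos hp]
        have h2 := DirichletCharacter.changeLevel_eq_cast_of_dvd' ψ h (a := (n : ℤ))
          (by exact_mod_cast Nat.isCoprime_iff_coprime.mpr (cop hq hqu hn hp))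
        push_cast at h2
        rw [h2]
      · rw [if_neg hp, if_neg hp])
  refine h1.trans (le_of_eq ?_)
  refine sum_congr rfl fun f _ => sum_congr ?_ fun _ _ => rfl
  ext χ
  simp [prm]

/-- the weighted sum over the primitive characters -/
noncomputable def GF (M : ℕ) (κ : ℝ) (F : ℕ) (u : ℝ) : ℝ :=
  ∑ f ∈ Icc 2 F, (1 / (Nat.totient f : ℝ)) * ∑ ψ ∈ prm f (fun _ => True), ‖WM ψ κ M u‖

lemma GF_nonneg (M : ℕ) (κ : ℝ) (F : ℕ) (u : ℝ) : 0 ≤ GF M κ F u :=
  sum_nonneg fun _ _ => mul_nonneg (by positivity) (sum_nonneg fun _ _ => norm_nonneg _)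

lemma prm_card {f : ℕ} (hf : 1 ≤ f) (P : DirichletCharacter ℂ f → Prop) :
    (prm f P).card ≤ Nat.totient f := by
  have : NeZero f := ⟨by omega⟩
  refine (card_le_univ _).trans (le_of_eq ?_)
  rw [← Nat.card_eq_fintype_card]
  exact DirichletCharacter.card_eq_totient_of_hasEnoughRootsOfUnity ℂ f

lemma disc3 {M : ℕ} {u κ : ℝ} (hκ : 0 ≤ κ) (hM : Real.exp (u + κ) ≤ M) {F : ℕ}
    (hF : (F : ℝ) ≤ Real.exp u) {a : ℕ → ℕ} (ha : ∀ q, (a q).Coprime q) :
    ∑ q ∈ Icc 1 F, |th u κ q (a q) - th u κ 1 0 / (Nat.totient q : ℝ)| ≤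
      Real.exp u * (∑ m ∈ Icc 1 F, 1 / (Nat.totient m : ℝ)) * GF M κ F u +
        (F : ℝ) ^ 2 * (κ * thw M u κ + ppw M u κ) := by
  set E : ℝ := κ * thw M u κ + ppw M u κ with hE
  have hE0 : 0 ≤ E := by
    refine add_nonneg (mul_nonneg hκ (sum_nonneg fun n hn => ?_)) (sum_nonneg fun n hn => ?_)
    · split_ifs
      · exact Real.log_natCast_nonneg n
      · exact le_rfl
    · split_ifs
      · exact le_rfl
      · exact ArithmeticFunction.vonMangoldt_nonneg
  set g : ℕ → ℝ := fun f => ∑ ψ ∈ prm f (fun _ => True), ‖WM ψ κ M u‖ with hg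
  have hg0 : ∀ f, 0 ≤ g f := fun f => sum_nonneg fun _ _ => norm_nonneg _
  have h1 : ∀ q ∈ Icc 1 F, |th u κ q (a q) - th u κ 1 0 / (Nat.totient q : ℝ)| ≤
      Real.exp u * ∑ f ∈ Icc 2 F, (if f ∣ q then (1 / (Nat.totient q : ℝ)) * g f else 0) + F * E := by
    intro q hq
    rw [mem_Icc] at hq
    have hqu : (q : ℝ) ≤ Real.exp u := le_trans (by exact_mod_cast hq.2) hF
    have : NeZero q := ⟨by omega⟩
    refine (disc2 hM hq.1 hqu (ha q)).trans ?_
    have h2 : ∑ f ∈ q.divisors.filter (fun f => f ≠ 1), ∑ ψ ∈ prm f (fun _ => True), ‖Tn M u κ ψ‖ ≤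
        ∑ f ∈ q.divisors.filter (fun f => f ≠ 1), (Real.exp u * g f + (Nat.totient f : ℝ) * E) := by
      refine sum_le_sum fun f hf => ?_
      rw [mem_filter] at hf
      have hf1 : 1 ≤ f := Nat.pos_of_mem_divisors hf.1
      refine (sum_le_sum fun ψ _ => T_le hκ ψ).trans ?_
      rw [sum_add_distrib, ← mul_sum, sum_const, nsmul_eq_mul]
      refine add_le_add le_rfl (mul_le_mul_of_nonneg_right ?_ hE0)
      exact_mod_cast prm_card hf1 _
    have hφ : (0 : ℝ) < Nat.totient q := by exact_mod_cast Nat.totient_pos.2 hq.1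
    refine (mul_le_mul_of_nonneg_left h2 (by positivity)).trans ?_
    rw [sum_add_distrib, ← mul_sum, mul_add, ← sum_mul]
    refine add_le_add (le_of_eq ?_) ?_
    · rw [← mul_assoc, mul_comm _ (Real.exp u), mul_assoc]
      congr 1
      rw [← sum_filter, mul_sum]
      refine sum_congr ?_ fun _ _ => rfl
      ext f
      rw [mem_filter, mem_filter, Nat.mem_divisors, mem_Icc]
      constructor
      · rintro ⟨⟨h3, h4⟩, h5⟩
        have h6 := Nat.le_of_dvd hq.1 h3
        have h7 := Nat.pos_of_dvd_of_pos h3 hq.1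
        exact ⟨⟨by omega, by omega⟩, h3⟩
      · rintro ⟨⟨h3, h4⟩, h5⟩
        exact ⟨⟨h5, by omega⟩, by omega⟩
    · have h3 : ∑ f ∈ q.divisors.filter (fun f => f ≠ 1), (Nat.totient f : ℝ) ≤ q := by
        refine (sum_le_sum_of_subset_of_nonneg (filter_subset _ _) fun _ _ _ => Nat.cast_nonneg _).trans ?_
        exact le_of_eq (by exact_mod_cast Nat.sum_totient q)
      have h4 : (1 : ℝ) / (Nat.totient q : ℝ) ≤ 1 := by
        rw [div_le_one hφ]
        exact_mod_cast Nat.totient_pos.2 hq.1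
      calc (1 : ℝ) / (Nat.totient q : ℝ) *
            ((∑ f ∈ q.divisors.filter (fun f => f ≠ 1), (Nat.totient f : ℝ)) * E)
          ≤ 1 * ((q : ℝ) * E) := by gcongr
        _ ≤ F * E := by
            rw [one_mul]
            exact mul_le_mul_of_nonneg_right (by exact_mod_cast hq.2) hE0
  refine (sum_le_sum h1).trans ?_
  rw [sum_add_distrib, ← mul_sum, sum_const, nsmul_eq_mul, Nat.card_Icc, Nat.add_sub_cancel]
  refine add_le_add ?_ (le_of_eq (by ring))
  rw [mul_assoc]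
  refine mul_le_mul_of_nonneg_left ?_ (Real.exp_pos _).le
  rw [sum_comm]
  unfold GF
  rw [mul_sum]
  refine sum_le_sum fun f hf => ?_
  rw [mem_Icc] at hf
  rw [← sum_filter, ← sum_mul]
  refine (mul_le_mul_of_nonneg_right (sum_mult_le F f (by omega)) (hg0 f)).trans (le_of_eq ?_)
  show _ = _ * (_ * g f)
  ring

/-- **S_BVG.** -/
theorem s_BVG (hCHS : S_CHS) : S_BVG := by
  intro A
  obtain ⟨Y₁, hY₁⟩ := hCHS (A + 3)
  obtain ⟨Y₂, hY₂1, hY₂⟩ := pow_le_exp (A + 3) (1 / 100) (by norm_num)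
  refine ⟨max (max Y₁ Y₂) 1000, fun Y hY κ hκ1 hκ2 => ?_⟩
  have hYY₁ : Y₁ ≤ Y := (le_max_left _ _).trans ((le_max_left _ _).trans hY)
  have hYY₂ : Y₂ ≤ Y := (le_max_right _ _).trans ((le_max_left _ _).trans hY)
  have hY1000 : 1000 ≤ Y := (le_max_right _ _).trans hY
  have hκ0 : 0 < κ := (Real.exp_pos _).trans_le hκ1
  have hκ4 : κ ≤ 1 / 4 := by
    refine hκ2.trans ?_
    have h1 : Real.exp (-(Y / 4)) = (Real.exp (Y / 4))⁻¹ := Real.exp_neg _
    have h2 : 4 ≤ Real.exp (Y / 4) := by linarith [Real.add_one_le_exp (Y / 4)]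
    rw [h1, one_div]
    exact inv_anti₀ (by norm_num) h2
  have hCH := hY₁ Y hYY₁ κ hκ1 hκ4
  set F : ℕ := Fc Y with hF
  set M : ℕ := ⌊Real.exp (Y + 1)⌋₊ with hMdef
  have hMu : ∀ u : ℝ, u ≤ Y + 1 / 4 → Real.exp (u + κ) ≤ M := by
    intro u hu
    have h1 : Real.exp (u + κ) ≤ Real.exp (Y + 1 / 2) := Real.exp_le_exp.2 (by linarith)
    have h2 : Real.exp (Y + 1 / 2) + 1 ≤ Real.exp (Y + 1) := by
      have h3 : Real.exp (Y + 1) = Real.exp (Y + 1 / 2) * Real.exp (1 / 2) := by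
        rw [← Real.exp_add]; congr 1; ring
      have h4 : 3 / 2 ≤ Real.exp (1 / 2) := by linarith [Real.add_one_le_exp (1 / 2 : ℝ)]
      have h5 : 2 ≤ Real.exp (Y + 1 / 2) := by linarith [Real.add_one_le_exp (Y + 1 / 2)]
      rw [h3]
      nlinarith
    have h3 := (Nat.sub_one_lt_floor (Real.exp (Y + 1))).le
    linarith
  -- the integral of `GF`
  have hint : ∫ u in (Y - 1 / 4)..(Y + 1 / 4), GF M κ F u ≤ κ / Y ^ (A + 3) := by
    refine le_trans (le_of_eq ?_) hCH
    unfold GF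
    rw [intervalIntegral.integral_finsetSum]
    · refine sum_congr rfl fun f _ => ?_
      rw [intervalIntegral.integral_const_mul, intervalIntegral.integral_finsetSum]
      · congr 1
        refine sum_congr rfl fun ψ _ => ?_
        refine intervalIntegral.integral_congr fun u hu => ?_
        rw [Set.uIcc_of_le (by linarith)] at hu
        show ‖WM ψ κ M u‖ = ‖Wn ψ κ u‖
        rw [Wn_eq_WM ψ (hMu _ le_rfl) hu.2]
      · intro ψ _
        exact intble_win _ κ M _ _
    · intro f _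
      refine IntervalIntegrable.const_mul ?_ _
      have h3 := IntervalIntegrable.sum (μ := volume) (a := Y - 1 / 4) (b := Y + 1 / 4) (prm f (fun _ => True))
        (f := fun ψ u => ‖WM ψ κ M u‖) (fun ψ _ => intble_win _ κ M _ _)
      have e : (∑ ψ ∈ prm f (fun _ => True), fun u => ‖WM ψ κ M u‖) =
          fun u => ∑ ψ ∈ prm f (fun _ => True), ‖WM ψ κ M u‖ := by
        funext t
        rw [Finset.sum_apply]
      rw [e] at h3
      exact h3
  have hGint : ∀ a b, IntervalIntegrable (GF M κ F) volume a b := by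
    intro a b
    have h3 := IntervalIntegrable.sum (μ := volume) (a := a) (b := b) (Icc 2 F)
      (f := fun f u => (1 / (Nat.totient f : ℝ)) * ∑ ψ ∈ prm f (fun _ => True), ‖WM ψ κ M u‖) (by
        intro f _
        refine IntervalIntegrable.const_mul ?_ _
        have h3 := IntervalIntegrable.sum (μ := volume) (a := a) (b := b) (prm f (fun _ => True))
          (f := fun ψ u => ‖WM ψ κ M u‖) (fun ψ _ => intble_win _ κ M _ _)
        have e : (∑ ψ ∈ prm f (fun _ => True), fun u => ‖WM ψ κ M u‖) =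
            fun u => ∑ ψ ∈ prm f (fun _ => True), ‖WM ψ κ M u‖ := by
          funext t
          rw [Finset.sum_apply]
        rw [e] at h3
        exact h3)
    have e : (∑ f ∈ Icc 2 F, fun u => (1 / (Nat.totient f : ℝ)) *
        ∑ ψ ∈ prm f (fun _ => True), ‖WM ψ κ M u‖) = GF M κ F := by
      funext t
      rw [Finset.sum_apply]
      rfl
    rw [e] at h3
    exact h3
  set J : ℕ := ⌊1 / (2 * κ)⌋₊ - 1 with hJ
  have hJκ : (J : ℝ) * κ + κ ≤ 1 / 2 := by
    have h1 : (⌊1 / (2 * κ)⌋₊ : ℝ) ≤ 1 / (2 * κ) := Nat.floor_le (by positivity)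
    have h2 : 1 ≤ ⌊1 / (2 * κ)⌋₊ := by
      rw [Nat.one_le_floor_iff, le_div_iff₀ (by positivity)]
      linarith
    have h3 : (J : ℝ) = (⌊1 / (2 * κ)⌋₊ : ℝ) - 1 := by
      rw [hJ, Nat.cast_sub h2, Nat.cast_one]
    have h4 : (J : ℝ) + 1 ≤ 1 / (2 * κ) := by linarith
    have h5 := mul_le_mul_of_nonneg_right h4 hκ0.le
    have h6 : 1 / (2 * κ) * κ = 1 / 2 := by field_simp
    linarith
  obtain ⟨t, ht0, ht1, htG⟩ := exists_shift (GF M κ F) (GF_nonneg M κ F) hGint (Y - 1 / 4)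
    (Y + 1 / 4) κ hκ0 J (by linarith)
  refine ⟨t, ht0, ht1, fun a ha => ?_⟩
  have hu : ∀ j ∈ range J, Y - 1 / 4 + t + j * κ ≤ Y + 1 / 4 := by
    intro j hj
    rw [mem_range] at hj
    have h1 : (j : ℝ) + 1 ≤ J := by exact_mod_cast hj
    nlinarith
  have hF1 : (F : ℝ) ≤ Real.exp (Y / 100) := Nat.floor_le (Real.exp_pos _).le
  have hFu : ∀ j ∈ range J, (F : ℝ) ≤ Real.exp (Y - 1 / 4 + t + j * κ) := by
    intro j _
    refine hF1.trans (Real.exp_le_exp.2 ?_)
    have : 0 ≤ (j : ℝ) * κ := by positivity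
    linarith
  have h1 : ∀ j ∈ range J, ∑ q ∈ Icc 1 F,
      |th (Y - 1 / 4 + t + j * κ) κ q (a j q) - th (Y - 1 / 4 + t + j * κ) κ 1 0 / (Nat.totient q : ℝ)| ≤
      Real.exp (Y + 1 / 4) * (4 * Y ^ 2) * GF M κ F (Y - 1 / 4 + t + j * κ) +
        (F : ℝ) ^ 2 * (κ * thw M (Y - 1 / 4 + t + j * κ) κ + ppw M (Y - 1 / 4 + t + j * κ) κ) := by
    intro j hj
    refine (disc3 hκ0.le (hMu _ (hu j hj)) (hFu j hj) (ha j)).trans ?_
    refine add_le_add ?_ le_rfl
    refine mul_le_mul_of_nonneg_right ?_ (GF_nonneg _ _ _ _)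
    exact mul_le_mul (Real.exp_le_exp.2 (hu j hj)) (sum_inv_phi_le (by linarith))
      (sum_nonneg fun _ _ => by positivity) (Real.exp_pos _).le
  refine (sum_le_sum h1).trans ?_
  rw [sum_add_distrib, ← mul_sum, ← mul_sum, sum_add_distrib, ← mul_sum]
  -- the error terms
  have hMx : (M : ℝ) ≤ Real.exp (Y + 1) := Nat.floor_le (Real.exp_pos _).le
  have hM1 : (1 : ℝ) ≤ M := by
    have := hMu (Y + 1 / 4) le_rfl
    have h2 : (1 : ℝ) ≤ Real.exp (Y + 1 / 4 + κ) := Real.one_le_exp (by linarith)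
    linarith
  have hth : ∑ j ∈ range J, thw M (Y - 1 / 4 + t + j * κ) κ ≤ 2 * Real.exp (Y + 1) := by
    unfold thw
    refine (sum_win (fun n => if n.Prime then Real.log n else 0) (fun n => by
      split_ifs
      · exact Real.log_natCast_nonneg n
      · exact le_rfl) M J (Y - 1 / 4 + t) κ hκ0).trans ?_
    have h2 : ∑ n ∈ Icc 1 M, (if n.Prime then Real.log n else 0) = Chebyshev.theta M := by
      rw [Chebyshev.theta_eq_sum_Icc, Nat.floor_natCast, ← sum_filter]
      refine (sum_subset ?_ ?_)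
      · intro n hn
        rw [mem_filter, mem_Icc] at hn ⊢
        exact ⟨⟨Nat.zero_le _, hn.1.2⟩, hn.2⟩
      · intro n hn hn'
        rw [mem_filter, mem_Icc] at hn hn'
        exact absurd ⟨⟨hn.2.one_le, hn.1.2⟩, hn.2⟩ hn'
    rw [h2]
    refine (Chebyshev.theta_le_log4_mul_x (by positivity)).trans ?_
    have h3 : Real.log 4 ≤ 2 := by
      have : Real.log 4 = 2 * Real.log 2 := by
        rw [show (4 : ℝ) = 2 ^ 2 by norm_num, Real.log_pow]; norm_num
      have := Real.log_two_lt_d9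
      linarith
    exact mul_le_mul h3 hMx (by positivity) (by norm_num)
  have hpp : ∑ j ∈ range J, ppw M (Y - 1 / 4 + t + j * κ) κ ≤ 2 * Real.exp ((Y + 1) / 2) * (Y + 1) := by
    unfold ppw
    refine (sum_win (fun n => if n.Prime then 0 else ArithmeticFunction.vonMangoldt n) (fun n => by
      split_ifs
      · exact le_rfl
      · exact ArithmeticFunction.vonMangoldt_nonneg) M J (Y - 1 / 4 + t) κ hκ0).trans ?_
    have h2 : ∑ n ∈ Icc 1 M, (if n.Prime then 0 else ArithmeticFunction.vonMangoldt n) =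
        Chebyshev.psi M - Chebyshev.theta M := by
      rw [Chebyshev.psi_sub_theta_eq_sum_not_prime, Nat.floor_natCast, sum_filter]
      refine sum_congr rfl fun n _ => ?_
      by_cases h : n.Prime <;> simp [h]
    rw [h2]
    refine (Chebyshev.psi_sub_theta_le hM1).trans ?_
    have h3 : Real.log M ≤ Y + 1 := by
      rw [Real.log_le_iff_le_exp (by linarith)]
      exact hMx
    have h4 : √(M : ℝ) ≤ Real.exp ((Y + 1) / 2) := by
      rw [Real.sqrt_le_left (Real.exp_pos _).le, ← Real.exp_nat_mul]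
      refine hMx.trans (le_of_eq ?_)
      congr 1
      push_cast; ring
    have h5 : 0 ≤ Real.log M := Real.log_nonneg hM1
    gcongr
  have hmain : Real.exp (Y + 1 / 4) * (4 * Y ^ 2) *
      ∑ j ∈ range J, GF M κ F (Y - 1 / 4 + t + j * κ) ≤ Real.exp Y / Y ^ A / 2 := by
    have h2 : (1 / κ) * ∫ u in (Y - 1 / 4)..(Y + 1 / 4), GF M κ F u ≤ 1 / Y ^ (A + 3) := by
      refine (mul_le_mul_of_nonneg_left hint (by positivity)).trans (le_of_eq ?_)
      field_simp
    have h3 : Real.exp (1 / 4) ≤ 2 := by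
      have h4 : Real.exp (1 / 4) ≤ Real.exp (1 / 2) := Real.exp_le_exp.2 (by norm_num)
      have h5 : Real.exp (1 / 2) ≤ 2 := by
        have h6 : Real.exp (1 / 2) ^ 2 = Real.exp 1 := by
          rw [← Real.exp_nat_mul]; norm_num
        have h7 := Real.exp_one_lt_d9
        nlinarith [Real.exp_pos (1 / 2 : ℝ)]
      linarith
    have h4 : Real.exp (Y + 1 / 4) ≤ 2 * Real.exp Y := by
      rw [Real.exp_add]
      nlinarith [Real.exp_pos Y]
    calc Real.exp (Y + 1 / 4) * (4 * Y ^ 2) * ∑ j ∈ range J, GF M κ F (Y - 1 / 4 + t + j * κ)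
        ≤ (2 * Real.exp Y) * (4 * Y ^ 2) * (1 / Y ^ (A + 3)) := by
          refine mul_le_mul (mul_le_mul_of_nonneg_right h4 (by positivity)) (htG.trans h2)
            (sum_nonneg fun _ _ => GF_nonneg _ _ _ _) (by positivity)
      _ = Real.exp Y / Y ^ A * (8 / Y) := by
          have : Y ≠ 0 := by linarith
          field_simp
          ring
      _ ≤ Real.exp Y / Y ^ A * (1 / 2) := by
          refine mul_le_mul_of_nonneg_left ?_ (by positivity)
          rw [div_le_div_iff₀ (by linarith) (by norm_num)]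
          linarith
      _ = _ := by ring
  have herr : (F : ℝ) ^ 2 * (κ * ∑ j ∈ range J, thw M (Y - 1 / 4 + t + j * κ) κ +
      ∑ j ∈ range J, ppw M (Y - 1 / 4 + t + j * κ) κ) ≤ Real.exp Y / Y ^ A / 2 := by
    have hA := hY₂ Y hYY₂
    have hF2 : (F : ℝ) ^ 2 ≤ Real.exp (Y / 50) := by
      refine (pow_le_pow_left₀ (Nat.cast_nonneg _) hF1 2).trans (le_of_eq ?_)
      rw [← Real.exp_nat_mul]
      congr 1
      push_cast; ring
    have h2 : κ * ∑ j ∈ range J, thw M (Y - 1 / 4 + t + j * κ) κ ≤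
        Real.exp (-(Y / 4)) * (2 * Real.exp (Y + 1)) :=
      mul_le_mul hκ2 hth (sum_nonneg fun _ _ => sum_nonneg fun n _ => by
        split_ifs
        · exact Real.log_natCast_nonneg n
        · exact le_rfl) (Real.exp_pos _).le
    have h3 : Real.exp (-(Y / 4)) * (2 * Real.exp (Y + 1)) ≤ Real.exp (3 / 4 * Y + 2) := by
      have : Real.exp (3 / 4 * Y + 2) = Real.exp (-(Y / 4)) * (Real.exp 1 * Real.exp (Y + 1)) := by
        rw [← Real.exp_add, ← Real.exp_add]; congr 1; ring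
      rw [this]
      have h4 : 2 ≤ Real.exp 1 := by linarith [Real.add_one_le_exp (1 : ℝ)]
      have h5 := Real.exp_pos (Y + 1)
      have h6 := Real.exp_pos (-(Y / 4))
      refine mul_le_mul_of_nonneg_left ?_ h6.le
      nlinarith
    have h4 : 2 * Real.exp ((Y + 1) / 2) * (Y + 1) ≤ Real.exp (3 / 4 * Y + 2) := by
      have h5 : Y + 1 ≤ 100 * Real.exp (Y / 100) := by
        have := Real.add_one_le_exp (Y / 100)
        nlinarith
      have h6 : (200 : ℝ) ≤ Real.exp (Y / 5) := by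
        have := Real.add_one_le_exp (Y / 5)
        linarith
      calc 2 * Real.exp ((Y + 1) / 2) * (Y + 1) ≤ 2 * Real.exp ((Y + 1) / 2) * (100 * Real.exp (Y / 100)) := by
            gcongr
        _ = 200 * (Real.exp ((Y + 1) / 2) * Real.exp (Y / 100)) := by ring
        _ ≤ Real.exp (Y / 5) * (Real.exp ((Y + 1) / 2) * Real.exp (Y / 100)) := by gcongr
        _ = Real.exp (Y / 5 + ((Y + 1) / 2 + Y / 100)) := by rw [Real.exp_add, Real.exp_add]
        _ ≤ _ := Real.exp_le_exp.2 (by linarith)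
    have h5 : (F : ℝ) ^ 2 * (κ * ∑ j ∈ range J, thw M (Y - 1 / 4 + t + j * κ) κ +
      ∑ j ∈ range J, ppw M (Y - 1 / 4 + t + j * κ) κ) ≤
        Real.exp (Y / 50) * (2 * Real.exp (3 / 4 * Y + 2)) := by
      refine mul_le_mul hF2 (by linarith) ?_ (Real.exp_pos _).le
      refine add_nonneg (mul_nonneg hκ0.le (sum_nonneg fun _ _ => sum_nonneg fun n _ => ?_))
        (sum_nonneg fun _ _ => sum_nonneg fun n _ => ?_)
      · split_ifs
        · exact Real.log_natCast_nonneg n
        · exact le_rfl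
      · split_ifs
        · exact le_rfl
        · exact ArithmeticFunction.vonMangoldt_nonneg
    refine h5.trans ?_
    have h6 : Y ^ A ≤ Real.exp (1 / 100 * Y) := by
      refine le_trans ?_ hA
      exact pow_le_pow_right₀ (by linarith) (by omega)
    rw [div_div, le_div_iff₀ (by positivity)]
    calc Real.exp (Y / 50) * (2 * Real.exp (3 / 4 * Y + 2)) * (Y ^ A * 2)
        ≤ Real.exp (Y / 50) * (2 * Real.exp (3 / 4 * Y + 2)) * (Real.exp (1 / 100 * Y) * 2) := by gcongr
      _ = 4 * (Real.exp (Y / 50) * Real.exp (3 / 4 * Y + 2) * Real.exp (1 / 100 * Y)) := by ring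
      _ ≤ Real.exp (Y / 100) * (Real.exp (Y / 50) * Real.exp (3 / 4 * Y + 2) * Real.exp (1 / 100 * Y)) := by
          gcongr
          linarith [Real.add_one_le_exp (Y / 100)]
      _ = Real.exp (Y / 100 + (Y / 50 + (3 / 4 * Y + 2) + 1 / 100 * Y)) := by
          rw [← Real.exp_add, ← Real.exp_add, ← Real.exp_add]
      _ ≤ Real.exp Y := Real.exp_le_exp.2 (by linarith)
  linarith

end Pool.Agent.L7h26.BW
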