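import Pool.Agent.L7h88.BW.Stm
import Pool.Agent.Helper112.Bilinear
import Pool.Agent.TH212.EH.A0

/-!
# Project BW: windows, basic lemmas
-/

set_option autoImplicit false

namespace Pool.Agent.L7h26.BW

open Finset Filter MeasureTheory
open Pool.Agent.L7h88.BW

/-- the integers of the window `(e^u, e^{u+κ}]` -/
noncomputable def win (M : ℕ) (u κ : ℝ) : Finset ℕ :=
  (Icc 1 M).filter (fun n : ℕ => u < Real.log n ∧ Real.log n ≤ u + κ)

lemma mem_win {M n : ℕ} {u κ : ℝ} : n ∈ win M u κ ↔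
    (1 ≤ n ∧ n ≤ M) ∧ u < Real.log n ∧ Real.log n ≤ u + κ := by
  unfold win
  rw [mem_filter, mem_Icc]

lemma win_eq {M : ℕ} {u κ : ℝ} (hM : Real.exp (u + κ) ≤ M) :
    (Icc 1 ⌊Real.exp (u + κ)⌋₊).filter (fun n : ℕ => u < Real.log n) = win M u κ := by
  ext n
  rw [mem_win, mem_filter, mem_Icc, Nat.le_floor_iff (Real.exp_pos _).le]
  constructor
  · rintro ⟨⟨h1, h2⟩, h3⟩
    have h4 : (0 : ℝ) < n := by exact_mod_cast h1
    exact ⟨⟨h1, by exact_mod_cast h2.trans hM⟩, h3, (Real.log_le_iff_le_exp h4).2 h2⟩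
  · rintro ⟨⟨h1, h2⟩, h3, h4⟩
    have h5 : (0 : ℝ) < n := by exact_mod_cast h1
    exact ⟨⟨h1, (Real.log_le_iff_le_exp h5).1 h4⟩, h3⟩

lemma Wn_eq {q : ℕ} (χ : DirichletCharacter ℂ q) {M : ℕ} {u κ : ℝ} (hM : Real.exp (u + κ) ≤ M) :
    Wn χ κ u = ∑ n ∈ win M u κ,
      ((ArithmeticFunction.vonMangoldt n / n : ℝ) : ℂ) * χ (n : ZMod q) := by
  unfold Wn
  rw [win_eq hM]

lemma th_eq {M : ℕ} {u κ : ℝ} (hM : Real.exp (u + κ) ≤ M) (q a : ℕ) :
    th u κ q a = ∑ n ∈ win M u κ, if n.Prime then (if n ≡ a [MOD q] then Real.log n else 0) else 0 := by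
  unfold th
  rw [← win_eq hM, sum_filter, sum_filter]
  refine sum_congr rfl fun n _ => ?_
  by_cases h1 : u < Real.log n
  · by_cases h2 : n.Prime
    · by_cases h3 : n ≡ a [MOD q]
      · simp [h1, h2, h3]
      · simp [h1, h2, h3]
    · simp [h2]
  · simp [h1]

lemma th_one {M : ℕ} {u κ : ℝ} (hM : Real.exp (u + κ) ≤ M) :
    th u κ 1 0 = ∑ n ∈ win M u κ, if n.Prime then Real.log n else 0 := by
  rw [th_eq hM]
  refine sum_congr rfl fun n _ => ?_
  rw [if_pos (Nat.modEq_one : n ≡ 0 [MOD 1])]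

/-- sums over consecutive windows -/
lemma sum_win (c : ℕ → ℝ) (hc : ∀ n, 0 ≤ c n) (M J : ℕ) (v κ : ℝ) (hκ : 0 < κ) :
    ∑ j ∈ range J, ∑ n ∈ win M (v + j * κ) κ, c n ≤ ∑ n ∈ Icc 1 M, c n := by
  have h1 : ∀ J : ℕ, ∑ j ∈ range J, ∑ n ∈ win M (v + j * κ) κ, c n =
      ∑ n ∈ Icc 1 M, if v < Real.log n ∧ Real.log n ≤ v + J * κ then c n else 0 := by
    intro J
    induction J with
    | zero =>
      rw [range_zero, sum_empty]
      refine (sum_eq_zero fun n _ => ?_).symm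
      rw [if_neg]
      rintro ⟨h1, h2⟩
      push_cast at h2
      linarith
    | succ J ih =>
      rw [sum_range_succ, ih]
      unfold win
      rw [sum_filter, ← sum_add_distrib]
      refine sum_congr rfl fun n _ => ?_
      have h0 : 0 ≤ (J : ℝ) * κ := by positivity
      have e : v + ((J + 1 : ℕ) : ℝ) * κ = v + J * κ + κ := by push_cast; ring
      rw [e]
      by_cases h1 : v < Real.log n ∧ Real.log n ≤ v + J * κ
      · rw [if_pos h1, if_neg (by rintro ⟨h2, _⟩; linarith [h1.2]),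
          if_pos ⟨h1.1, by linarith [h1.2]⟩, add_zero]
      · rw [if_neg h1, zero_add]
        by_cases h2 : v + J * κ < Real.log n ∧ Real.log n ≤ v + J * κ + κ
        · rw [if_pos h2, if_pos ⟨by linarith [h2.1], h2.2⟩]
        · rw [if_neg h2, if_neg]
          rintro ⟨h3, h4⟩
          by_cases h5 : Real.log n ≤ v + J * κ
          · exact h1 ⟨h3, h5⟩
          · exact h2 ⟨lt_of_not_ge h5, h4⟩
  rw [h1]
  refine sum_le_sum fun n _ => ?_
  split_ifs
  · exact le_rfl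
  · exact hc n

/-! ### measurability -/

/-- the window sum with a fixed range -/
noncomputable def WM {q : ℕ} (χ : DirichletCharacter ℂ q) (κ : ℝ) (M : ℕ) (u : ℝ) : ℂ :=
  ∑ n ∈ win M u κ, ((ArithmeticFunction.vonMangoldt n / n : ℝ) : ℂ) * χ (n : ZMod q)

lemma measurable_win (c : ℕ → ℂ) (κ : ℝ) (M : ℕ) :
    Measurable fun u : ℝ => ∑ n ∈ win M u κ, c n := by
  unfold win
  simp only [sum_filter]
  refine Finset.measurable_sum _ fun n _ => ?_
  refine Measurable.ite ?_ measurable_const measurable_const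
  have h1 : {u : ℝ | u < Real.log n ∧ Real.log n ≤ u + κ} =
      Set.Iio (Real.log n) ∩ Set.Ici (Real.log n - κ) := by
    ext u
    simp only [Set.mem_ofPred_eq, Set.mem_inter_iff, Set.mem_Iio, Set.mem_Ici]
    constructor
    · rintro ⟨a, b⟩; exact ⟨a, by linarith⟩
    · rintro ⟨a, b⟩; exact ⟨a, by linarith⟩
  rw [h1]
  exact measurableSet_Iio.inter measurableSet_Ici

lemma norm_win_le (c : ℕ → ℂ) (κ : ℝ) (M : ℕ) (u : ℝ) :
    ‖∑ n ∈ win M u κ, c n‖ ≤ ∑ n ∈ Icc 1 M, ‖c n‖ := by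
  refine (norm_sum_le _ _).trans ?_
  exact sum_le_sum_of_subset_of_nonneg (filter_subset _ _) fun _ _ _ => norm_nonneg _

lemma intble_win (c : ℕ → ℂ) (κ : ℝ) (M : ℕ) (a b : ℝ) :
    IntervalIntegrable (fun u : ℝ => ‖∑ n ∈ win M u κ, c n‖) volume a b := by
  refine (intervalIntegrable_const (c := ∑ n ∈ Icc 1 M, ‖c n‖)).mono_fun
    (measurable_win c κ M).norm.aestronglyMeasurable ?_
  refine Filter.Eventually.of_forall fun u => ?_
  show ‖‖∑ n ∈ win M u κ, c n‖‖ ≤ ‖∑ n ∈ Icc 1 M, ‖c n‖‖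
  rw [norm_norm, Real.norm_of_nonneg (sum_nonneg fun _ _ => norm_nonneg _)]
  exact norm_win_le c κ M u

lemma intble_win_sq (c : ℕ → ℂ) (κ : ℝ) (M : ℕ) (a b : ℝ) :
    IntervalIntegrable (fun u : ℝ => ‖∑ n ∈ win M u κ, c n‖ ^ 2) volume a b := by
  refine (intervalIntegrable_const (c := (∑ n ∈ Icc 1 M, ‖c n‖) ^ 2)).mono_fun
    ((measurable_win c κ M).norm.pow_const 2).aestronglyMeasurable ?_
  refine Filter.Eventually.of_forall fun u => ?_
  have h0 : 0 ≤ ∑ n ∈ Icc 1 M, ‖c n‖ := sum_nonneg fun _ _ => norm_nonneg _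
  show ‖‖∑ n ∈ win M u κ, c n‖ ^ 2‖ ≤ ‖(∑ n ∈ Icc 1 M, ‖c n‖) ^ 2‖
  rw [Real.norm_of_nonneg (by positivity), Real.norm_of_nonneg (by positivity)]
  exact pow_le_pow_left₀ (norm_nonneg _) (norm_win_le c κ M u) 2

/-- `Wn` on a bounded range -/
lemma Wn_eq_WM {q : ℕ} (χ : DirichletCharacter ℂ q) {M : ℕ} {b κ : ℝ} (hM : Real.exp (b + κ) ≤ M)
    {u : ℝ} (hu : u ≤ b) : Wn χ κ u = WM χ κ M u :=
  Wn_eq χ ((Real.exp_le_exp.2 (by linarith)).trans hM)

/-- choosing a shift -/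
lemma exists_shift (G : ℝ → ℝ) (hG : ∀ u, 0 ≤ G u) (hint : ∀ a b, IntervalIntegrable G volume a b)
    (a b κ : ℝ) (hκ : 0 < κ) (J : ℕ) (hJ : a + J * κ ≤ b) :
    ∃ t : ℝ, 0 ≤ t ∧ t ≤ κ ∧ ∑ j ∈ range J, G (a + t + j * κ) ≤ (1 / κ) * ∫ u in a..b, G u := by
  have h1 : ∀ j : ℕ, IntervalIntegrable (fun t => G (a + t + j * κ)) volume 0 κ := by
    intro j
    have h2 := (hint (a + j * κ) (a + j * κ + κ)).comp_add_right (a + j * κ)
    have h3 : (fun x => G (x + (a + j * κ))) = fun t => G (a + t + j * κ) := by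
      funext x; congr 1; ring
    rw [h3] at h2
    simpa using h2
  have h2 : IntervalIntegrable (fun t => ∑ j ∈ range J, G (a + t + j * κ)) volume 0 κ := by
    have h3 := IntervalIntegrable.sum (range J) (f := fun (j : ℕ) t => G (a + t + j * κ))
      (fun j _ => h1 j)
    have e : (∑ j ∈ range J, fun t => G (a + t + (j : ℝ) * κ)) = fun t => ∑ j ∈ range J, G (a + t + j * κ) := by
      funext t
      rw [Finset.sum_apply]
    rw [e] at h3
    exact h3
  have h3 : ∫ t in (0 : ℝ)..κ, ∑ j ∈ range J, G (a + t + j * κ) = ∫ u in a..(a + J * κ), G u := by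
    rw [intervalIntegral.integral_finsetSum fun j _ => h1 j]
    have h4 : ∀ j ∈ range J, ∫ t in (0 : ℝ)..κ, G (a + t + (j : ℝ) * κ) =
        ∫ u in (a + j * κ)..(a + ((j + 1 : ℕ) : ℝ) * κ), G u := by
      intro j _
      have h5 := intervalIntegral.integral_comp_add_right (a := 0) (b := κ) G (a + j * κ)
      have h6 : (fun x => G (x + (a + j * κ))) = fun t => G (a + t + j * κ) := by
        funext x; congr 1; ring
      rw [h6] at h5
      rw [h5]
      congr 1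
      · ring
      · push_cast; ring
    rw [sum_congr rfl h4]
    have h7 := intervalIntegral.sum_integral_adjacent_intervals (μ := volume) (f := G)
      (a := fun j : ℕ => a + (j : ℝ) * κ) (n := J) (fun k _ => hint _ _)
    rw [h7]
    simp
  have h4 : ∫ u in a..(a + J * κ), G u ≤ ∫ u in a..b, G u := by
    have h0 : 0 ≤ (J : ℝ) * κ := by positivity
    rw [← intervalIntegral.integral_add_adjacent_intervals (hint a (a + J * κ)) (hint (a + J * κ) b)]
    have h5 := intervalIntegral.integral_nonneg hJ (f := G) (μ := volume) fun u _ => hG u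
    linarith
  have hμ : volume (Set.Ioc 0 κ) ≠ 0 := by
    rw [Real.volume_Ioc, sub_zero]
    simpa using hκ
  have hμ' : volume (Set.Ioc 0 κ) ≠ ⊤ := by
    rw [Real.volume_Ioc]
    exact ENNReal.ofReal_ne_top
  obtain ⟨t, ht, ht'⟩ := MeasureTheory.exists_le_setAverage hμ hμ'
    ((intervalIntegrable_iff_integrableOn_Ioc_of_le hκ.le).1 h2)
  refine ⟨t, ht.1.le, ht.2, ht'.trans ?_⟩
  rw [MeasureTheory.setAverage_eq, ← intervalIntegral.integral_of_le hκ.le, h3]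
  rw [Measure.real, Real.volume_Ioc, sub_zero, ENNReal.toReal_ofReal hκ.le, smul_eq_mul, one_div]
  exact mul_le_mul_of_nonneg_left h4 (inv_nonneg.2 hκ.le)

/-! ### Euler's function, growth -/

lemma harm_le (Q : ℕ) : ∑ q ∈ Icc 1 Q, 1 / (q : ℝ) ≤ 1 + Real.log Q := by
  rcases Nat.eq_zero_or_pos Q with h | h
  · subst h; simp
  · exact Pool.Agent.Helper112.harm_le Q h

lemma log_Fc (Y : ℝ) : Real.log (Fc Y) ≤ Y / 100 ∨ Fc Y = 0 := by
  rcases Nat.eq_zero_or_pos (Fc Y) with h | h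
  · exact Or.inr h
  · left
    have h1 : (0 : ℝ) < Fc Y := by exact_mod_cast h
    rw [Real.log_le_iff_le_exp h1]
    exact Nat.floor_le (Real.exp_pos _).le

lemma log_Fc_le {Y : ℝ} (hY : 0 ≤ Y) : Real.log (Fc Y) ≤ Y / 100 := by
  rcases log_Fc Y with h | h
  · exact h
  · rw [h]
    simp
    positivity

lemma inv_phi_le {Y : ℝ} (hY : 1 ≤ Y) {f : ℕ} (h1 : 1 ≤ f) (h2 : f ≤ Fc Y) :
    1 / (Nat.totient f : ℝ) ≤ 2 * Y * (1 / f) := by
  refine (Pool.Agent.TH212.EH.inv_phi f h1 _ h2).trans ?_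
  have := log_Fc_le (by linarith : 0 ≤ Y)
  exact mul_le_mul_of_nonneg_right (by linarith) (by positivity)

lemma sum_inv_phi_le {Y : ℝ} (hY : 1 ≤ Y) :
    ∑ f ∈ Icc 1 (Fc Y), 1 / (Nat.totient f : ℝ) ≤ 4 * Y ^ 2 := by
  have h1 : ∑ f ∈ Icc 1 (Fc Y), 1 / (Nat.totient f : ℝ) ≤
      ∑ f ∈ Icc 1 (Fc Y), 2 * Y * (1 / (f : ℝ)) := by
    refine sum_le_sum fun f hf => ?_
    rw [mem_Icc] at hf
    exact inv_phi_le hY hf.1 hf.2
  refine h1.trans ?_
  rw [← mul_sum]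
  have h2 := harm_le (Fc Y)
  have h3 := log_Fc_le (by linarith : 0 ≤ Y)
  have h4 : ∑ q ∈ Icc 1 (Fc Y), 1 / (q : ℝ) ≤ 2 * Y := by linarith
  have h5 := mul_le_mul_of_nonneg_left h4 (by linarith : 0 ≤ 2 * Y)
  refine h5.trans (le_of_eq (by ring))

/-- the multiples of `f` -/
lemma sum_mult_le (F f : ℕ) (hf : 1 ≤ f) :
    ∑ q ∈ (Icc 1 F).filter (fun q => f ∣ q), 1 / (Nat.totient q : ℝ) ≤
      1 / (Nat.totient f : ℝ) * ∑ m ∈ Icc 1 F, 1 / (Nat.totient m : ℝ) := by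
  have h1 : (Icc 1 F).filter (fun q => f ∣ q) ⊆ (Icc 1 F).image (fun m => f * m) := by
    intro q hq
    rw [mem_filter, mem_Icc] at hq
    obtain ⟨⟨h1, h2⟩, m, rfl⟩ := hq
    rw [mem_image]
    refine ⟨m, ?_, rfl⟩
    rw [mem_Icc]
    have : 1 ≤ m := Nat.pos_of_ne_zero (by rintro rfl; simp at h1)
    exact ⟨this, by nlinarith⟩
  refine (sum_le_sum_of_subset_of_nonneg h1 fun _ _ _ => by positivity).trans ?_
  rw [sum_image (by
    intro a _ b _ hab
    exact Nat.eq_of_mul_eq_mul_left (by omega) hab), mul_sum]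
  refine sum_le_sum fun m hm => ?_
  rw [mem_Icc] at hm
  have h2 : (0 : ℝ) < Nat.totient f := by exact_mod_cast Nat.totient_pos.2 hf
  have h3 : (0 : ℝ) < Nat.totient m := by exact_mod_cast Nat.totient_pos.2 hm.1
  rw [one_div_mul_one_div]
  refine one_div_le_one_div_of_le (by positivity) ?_
  exact_mod_cast Nat.totient_super_multiplicative f m

lemma pow_le_exp (k : ℕ) (c : ℝ) (hc : 0 < c) : ∃ Y₀ : ℝ, 1 ≤ Y₀ ∧ ∀ Y : ℝ, Y₀ ≤ Y →
    Y ^ k ≤ Real.exp (c * Y) := by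
  have h1 := (isLittleO_pow_exp_pos_mul_atTop k hc).bound (show (0 : ℝ) < 1 by norm_num)
  obtain ⟨Y₀, h⟩ := Filter.eventually_atTop.1 h1
  refine ⟨max Y₀ 1, le_max_right _ _, fun Y hY => ?_⟩
  have h2 := h Y ((le_max_left _ _).trans hY)
  have h3 : 1 ≤ Y := (le_max_right _ _).trans hY
  rwa [one_mul, Real.norm_of_nonneg (by positivity), Real.norm_of_nonneg (Real.exp_pos _).le] at h2

end Pool.Agent.L7h26.BW
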