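import Pool.Agent.L7h26.BW.Bvg

/-!
# Project BW: the sum over the characters (`S_WINQ → S_BADC → S_SML → S_CHS`)
-/

set_option autoImplicit false

namespace Pool.Agent.L7h26.BW

open Finset Filter MeasureTheory
open Pool.Agent.L7h88.BW

lemma prm_split (f : ℕ) (P : DirichletCharacter ℂ f → Prop) (g : DirichletCharacter ℂ f → ℝ) :
    ∑ χ ∈ prm f (fun _ => True), g χ = ∑ χ ∈ prm f P, g χ + ∑ χ ∈ prm f (fun χ => ¬ P χ), g χ := by
  classical
  have h1 : prm f P = (prm f (fun _ => True)).filter P := by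
    ext χ; simp [prm]
  have h2 : prm f (fun χ => ¬ P χ) = (prm f (fun _ => True)).filter (fun χ => ¬ P χ) := by
    ext χ; simp [prm]
  rw [h1, h2, sum_filter_add_sum_filter_not]

lemma prm_prim {f : ℕ} {P : DirichletCharacter ℂ f → Prop} {χ : DirichletCharacter ℂ f}
    (h : χ ∈ prm f P) : χ.IsPrimitive ∧ P χ := by
  classical
  unfold prm at h
  rw [mem_filter] at h
  exact h.2

lemma prim_ne_one {f : ℕ} (hf : 2 ≤ f) {χ : DirichletCharacter ℂ f} (h : χ.IsPrimitive) : χ ≠ 1 := by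
  have : NeZero f := ⟨by omega⟩
  intro h1
  have h2 : χ.conductor = 1 := DirichletCharacter.eq_one_iff_conductor_eq_one.1 h1
  have h3 : χ.conductor = f := h
  omega

/-- the number of the integers of a window -/
lemma win_card_le (M : ℕ) (u κ : ℝ) (hκ : 0 ≤ κ) :
    ((win M u κ).card : ℝ) ≤ Real.exp (u + κ) - Real.exp u + 1 := by
  have h1 : win M u κ ⊆ Ioc ⌊Real.exp u⌋₊ ⌊Real.exp (u + κ)⌋₊ := by
    intro n hn
    rw [mem_win] at hn
    obtain ⟨⟨h1, _⟩, h2, h3⟩ := hn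
    have h0 : (0 : ℝ) < n := by exact_mod_cast h1
    rw [mem_Ioc, Nat.floor_lt (Real.exp_pos _).le, Nat.le_floor_iff (Real.exp_pos _).le]
    exact ⟨(Real.lt_log_iff_exp_lt h0).1 h2, (Real.log_le_iff_le_exp h0).1 h3⟩
  have h2 := card_le_card h1
  rw [Nat.card_Ioc] at h2
  have h3 : ⌊Real.exp u⌋₊ ≤ ⌊Real.exp (u + κ)⌋₊ :=
    Nat.floor_le_floor (Real.exp_le_exp.2 (by linarith))
  have h4 : ((win M u κ).card : ℝ) ≤ (⌊Real.exp (u + κ)⌋₊ : ℝ) - (⌊Real.exp u⌋₊ : ℝ) := by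
    rw [← Nat.cast_sub h3]
    exact_mod_cast h2
  have h5 := Nat.floor_le (Real.exp_pos (u + κ)).le
  have h6 := Nat.lt_floor_add_one (Real.exp u)
  linarith

/-- the trivial bound for a window -/
lemma Wn_triv {q : ℕ} (χ : DirichletCharacter ℂ q) {M : ℕ} {Y u κ : ℝ} (hY : 1 ≤ Y)
    (hκ : Real.exp (-(0.504 * Y)) ≤ κ) (hκ4 : κ ≤ 1 / 4) (hu1 : Y - 1 / 4 ≤ u) (hu2 : u ≤ Y + 1 / 4) :
    ‖WM χ κ M u‖ ≤ 8 * κ * Y := by
  have hκ0 : 0 < κ := (Real.exp_pos _).trans_le hκ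
  unfold WM
  have h1 : ∀ n ∈ win M u κ, ‖((ArithmeticFunction.vonMangoldt n / n : ℝ) : ℂ) * χ (n : ZMod q)‖ ≤
      (Y + 1 / 2) * Real.exp (-u) := by
    intro n hn
    rw [mem_win] at hn
    obtain ⟨⟨h1, _⟩, h2, h3⟩ := hn
    have h0 : (0 : ℝ) < n := by exact_mod_cast h1
    have h4 : Real.exp u < n := (Real.lt_log_iff_exp_lt h0).1 h2
    have hΛ : 0 ≤ ArithmeticFunction.vonMangoldt n := ArithmeticFunction.vonMangoldt_nonneg
    have hΛ' : ArithmeticFunction.vonMangoldt n ≤ Y + 1 / 2 :=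
      ArithmeticFunction.vonMangoldt_le_log.trans (by linarith)
    rw [norm_mul, Complex.norm_real, Real.norm_of_nonneg (div_nonneg hΛ h0.le)]
    calc ArithmeticFunction.vonMangoldt n / n * ‖χ (n : ZMod q)‖
        ≤ ArithmeticFunction.vonMangoldt n / n * 1 :=
          mul_le_mul_of_nonneg_left (χ.norm_le_one _) (div_nonneg hΛ h0.le)
      _ = ArithmeticFunction.vonMangoldt n * (n : ℝ)⁻¹ := by rw [mul_one, div_eq_mul_inv]
      _ ≤ (Y + 1 / 2) * Real.exp (-u) := by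
          rw [Real.exp_neg]
          exact mul_le_mul hΛ' (inv_anti₀ (Real.exp_pos _) h4.le) (by positivity) (by linarith)
  refine (norm_sum_le _ _).trans ((sum_le_sum h1).trans ?_)
  rw [sum_const, nsmul_eq_mul]
  have h2 := win_card_le M u κ hκ0.le
  have h3 : Real.exp (u + κ) - Real.exp u + 1 ≤ (2 * κ + Real.exp (-u)) * Real.exp u := by
    have e1 : Real.exp (-u) * Real.exp u = 1 := by rw [← Real.exp_add]; simp
    have e2 : Real.exp κ ≤ 1 + 2 * κ := by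
      have h6 := Real.abs_exp_sub_one_sub_id_le (x := κ) (by rw [abs_of_pos hκ0]; linarith)
      have h7 := (abs_le.1 h6).2
      nlinarith
    rw [Real.exp_add, add_mul, e1]
    nlinarith [Real.exp_pos u]
  have h4 : Real.exp (-u) ≤ κ * Real.exp (1 / 4) := by
    have e1 : Real.exp (-u) ≤ Real.exp (-(0.504 * Y)) * Real.exp (1 / 4) := by
      rw [← Real.exp_add]
      exact Real.exp_le_exp.2 (by linarith)
    refine e1.trans (mul_le_mul_of_nonneg_right hκ (Real.exp_pos _).le)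
  have h5 : Real.exp (1 / 4) ≤ 2 := by
    have h6 := Real.abs_exp_sub_one_sub_id_le (x := 1 / 4) (by rw [abs_of_pos (by norm_num)]; norm_num)
    have h7 := (abs_le.1 h6).2
    linarith
  have h6 : Real.exp (-u) ≤ 2 * κ := h4.trans (by nlinarith)
  have e1 : Real.exp u * Real.exp (-u) = 1 := by rw [← Real.exp_add]; simp
  calc ((win M u κ).card : ℝ) * ((Y + 1 / 2) * Real.exp (-u))
      ≤ ((2 * κ + Real.exp (-u)) * Real.exp u) * ((Y + 1 / 2) * Real.exp (-u)) :=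
        mul_le_mul_of_nonneg_right (h2.trans h3) (mul_nonneg (by linarith) (Real.exp_pos _).le)
    _ = (2 * κ + Real.exp (-u)) * (Y + 1 / 2) * (Real.exp u * Real.exp (-u)) := by ring
    _ = (2 * κ + Real.exp (-u)) * (Y + 1 / 2) := by rw [e1, mul_one]
    _ ≤ (4 * κ) * (2 * Y) := by
        refine mul_le_mul (by linarith) (by linarith) (by linarith) (by linarith)
    _ = 8 * κ * Y := by ring

/-- the mean of the absolute value -/
noncomputable def II (Y κ : ℝ) {q : ℕ} (χ : DirichletCharacter ℂ q) : ℝ :=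
  ∫ u in (Y - 1 / 4)..(Y + 1 / 4), ‖Wn χ κ u‖

/-- **S_CHS.** -/
theorem s_CHS (hW : S_WINQ) (hB : S_BADC) (hS : S_SML) : S_CHS := by
  intro A
  obtain ⟨B0, Y₁, hY₁⟩ := hW (2 * A + 4)
  obtain ⟨C₁, Y₂, hY₂⟩ := hB B0
  obtain ⟨Y₃, hY₃⟩ := hS (C₁ + A + 3) B0
  refine ⟨max (max Y₁ Y₂) (max Y₃ 100), fun Y hY κ hκ hκ4 => ?_⟩
  have hYY₁ : Y₁ ≤ Y := (le_max_left _ _).trans ((le_max_left _ _).trans hY)
  have hYY₂ : Y₂ ≤ Y := (le_max_right _ _).trans ((le_max_left _ _).trans hY)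
  have hYY₃ : Y₃ ≤ Y := (le_max_left _ _).trans ((le_max_right _ _).trans hY)
  have hY100 : 100 ≤ Y := (le_max_right _ _).trans ((le_max_right _ _).trans hY)
  have hκ0 : 0 < κ := (Real.exp_pos _).trans_le hκ
  have hY0 : (0 : ℝ) < Y := by linarith
  set F : ℕ := Fc Y with hF
  obtain ⟨M, hM⟩ := exists_nat_ge (Real.exp (Y + 1 / 4 + κ))
  have hWW : ∀ {q : ℕ} (χ : DirichletCharacter ℂ q), ∀ u ∈ Set.uIcc (Y - 1 / 4) (Y + 1 / 4),
      Wn χ κ u = WM χ κ M u := by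
    intro q χ u hu
    rw [Set.uIcc_of_le (by linarith)] at hu
    exact Wn_eq_WM χ hM hu.2
  have hI : ∀ {q : ℕ} (χ : DirichletCharacter ℂ q), IntervalIntegrable (fun u => ‖Wn χ κ u‖) volume
      (Y - 1 / 4) (Y + 1 / 4) := by
    intro q χ
    refine (intble_win (fun n => ((ArithmeticFunction.vonMangoldt n / n : ℝ) : ℂ) * χ (n : ZMod q))
      κ M (Y - 1 / 4) (Y + 1 / 4)).congr ?_
    intro u hu
    show ‖WM χ κ M u‖ = ‖Wn χ κ u‖
    rw [hWW χ u (Set.uIoc_subset_uIcc hu)]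
  have hQ : ∀ {q : ℕ} (χ : DirichletCharacter ℂ q), IntervalIntegrable (fun u => ‖Wn χ κ u‖ ^ 2) volume
      (Y - 1 / 4) (Y + 1 / 4) := by
    intro q χ
    refine (intble_win_sq (fun n => ((ArithmeticFunction.vonMangoldt n / n : ℝ) : ℂ) * χ (n : ZMod q))
      κ M (Y - 1 / 4) (Y + 1 / 4)).congr ?_
    intro u hu
    show ‖WM χ κ M u‖ ^ 2 = ‖Wn χ κ u‖ ^ 2
    rw [hWW χ u (Set.uIoc_subset_uIcc hu)]
  -- the good characters
  have hgood : ∑ f ∈ Icc 2 F, (1 / (Nat.totient f : ℝ)) * ∑ χ ∈ prm f (Good Y B0), II Y κ χ ≤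
      κ / Y ^ A / 2 := by
    set lam : ℝ := κ / Y ^ (A + 3) with hlam
    have hlam0 : 0 < lam := by positivity
    have h1 : ∀ f ∈ Icc 2 F, (1 / (Nat.totient f : ℝ)) * ∑ χ ∈ prm f (Good Y B0), II Y κ χ ≤
        lam / 4 * (1 / (Nat.totient f : ℝ)) + 1 / (2 * lam) *
          ∑ χ ∈ prm f (Good Y B0), ∫ u in (Y - 1 / 4)..(Y + 1 / 4), ‖Wn χ κ u‖ ^ 2 := by
      intro f hf
      rw [mem_Icc] at hf
      have hφ : (0 : ℝ) < Nat.totient f := by exact_mod_cast Nat.totient_pos.2 (by omega)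
      have h2 : ∀ χ ∈ prm f (Good Y B0), (1 / (Nat.totient f : ℝ)) * II Y κ χ ≤
          lam / 4 * (1 / (Nat.totient f : ℝ)) ^ 2 +
            1 / (2 * lam) * ∫ u in (Y - 1 / 4)..(Y + 1 / 4), ‖Wn χ κ u‖ ^ 2 := by
        intro χ _
        show (1 / (Nat.totient f : ℝ)) * ∫ u in (Y - 1 / 4)..(Y + 1 / 4), ‖Wn χ κ u‖ ≤ _
        rw [← intervalIntegral.integral_const_mul, ← intervalIntegral.integral_const_mul]
        have h3 : ∫ u in (Y - 1 / 4)..(Y + 1 / 4), (1 / (Nat.totient f : ℝ)) * ‖Wn χ κ u‖ ≤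
            ∫ u in (Y - 1 / 4)..(Y + 1 / 4), (lam / 2 * (1 / (Nat.totient f : ℝ)) ^ 2 +
              1 / (2 * lam) * ‖Wn χ κ u‖ ^ 2) := by
          refine intervalIntegral.integral_mono_on (by linarith) ((hI χ).const_mul _)
            (intervalIntegrable_const.add ((hQ χ).const_mul _)) fun u _ => ?_
          have h4 : 0 ≤ (lam * (1 / (Nat.totient f : ℝ)) - ‖Wn χ κ u‖) ^ 2 / (2 * lam) := by
            positivity
          have h5 : (lam * (1 / (Nat.totient f : ℝ)) - ‖Wn χ κ u‖) ^ 2 / (2 * lam) =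
              lam / 2 * (1 / (Nat.totient f : ℝ)) ^ 2 + 1 / (2 * lam) * ‖Wn χ κ u‖ ^ 2 -
                (1 / (Nat.totient f : ℝ)) * ‖Wn χ κ u‖ := by
            field_simp
            ring
          linarith
        refine h3.trans (le_of_eq ?_)
        rw [intervalIntegral.integral_add intervalIntegrable_const ((hQ χ).const_mul _),
          intervalIntegral.integral_const]
        rw [smul_eq_mul]
        ring
      rw [mul_sum]
      refine (sum_le_sum h2).trans ?_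
      rw [sum_add_distrib, sum_const, nsmul_eq_mul, ← mul_sum]
      refine add_le_add ?_ le_rfl
      have h3 : ((prm f (Good Y B0)).card : ℝ) ≤ Nat.totient f := by
        exact_mod_cast prm_card (by omega) _
      calc ((prm f (Good Y B0)).card : ℝ) * (lam / 4 * (1 / (Nat.totient f : ℝ)) ^ 2)
          ≤ (Nat.totient f : ℝ) * (lam / 4 * (1 / (Nat.totient f : ℝ)) ^ 2) :=
            mul_le_mul_of_nonneg_right h3 (by positivity)
        _ = _ := by field_simp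
    refine (sum_le_sum h1).trans ?_
    rw [sum_add_distrib, ← mul_sum, ← mul_sum]
    have h2 : ∑ f ∈ Icc 2 F, 1 / (Nat.totient f : ℝ) ≤ 4 * Y ^ 2 := by
      refine le_trans (sum_le_sum_of_subset_of_nonneg (Icc_subset_Icc_left (by norm_num)) ?_)
        (sum_inv_phi_le (by linarith : 1 ≤ Y))
      intro _ _ _
      positivity
    have h3 := hY₁ Y hYY₁ κ hκ hκ4
    calc lam / 4 * ∑ f ∈ Icc 2 F, 1 / (Nat.totient f : ℝ) + 1 / (2 * lam) *
          ∑ f ∈ Icc 2 F, ∑ χ ∈ prm f (Good Y B0), ∫ u in (Y - 1 / 4)..(Y + 1 / 4), ‖Wn χ κ u‖ ^ 2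
        ≤ lam / 4 * (4 * Y ^ 2) + 1 / (2 * lam) * (κ ^ 2 / Y ^ (2 * A + 4)) := by gcongr
      _ = κ / Y ^ A * (3 / 2 / Y) := by
          rw [hlam]
          field_simp
          ring
      _ ≤ κ / Y ^ A * (1 / 2) := by
          refine mul_le_mul_of_nonneg_left ?_ (by positivity)
          rw [div_le_div_iff₀ hY0 (by norm_num)]
          linarith
      _ = _ := by ring
  -- the bad characters
  have hbad : ∑ f ∈ Icc 2 F, (1 / (Nat.totient f : ℝ)) * ∑ χ ∈ prm f (fun χ => ¬ Good Y B0 χ), II Y κ χ ≤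
      κ / Y ^ A / 2 := by
    have h1 : ∀ f ∈ Icc 2 F, (1 / (Nat.totient f : ℝ)) * ∑ χ ∈ prm f (fun χ => ¬ Good Y B0 χ), II Y κ χ ≤
        ((prm f (fun χ => ¬ Good Y B0 χ)).card : ℝ) * (8 * κ * Y ^ 2 / Y ^ (C₁ + A + 3)) := by
      intro f hf
      rw [mem_Icc] at hf
      rw [mul_sum, ← nsmul_eq_mul, ← sum_const]
      refine sum_le_sum fun χ hχ => ?_
      obtain ⟨hprim, hng⟩ := prm_prim hχ
      have hf1 : Y ^ (C₁ + A + 3) < f := by
        by_contra hcon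
        have : NeZero f := ⟨by omega⟩
        exact hng (hY₃ Y hYY₃ f this χ (not_lt.1 hcon) (prim_ne_one hf.1 hprim))
      have h2 : II Y κ χ ≤ 4 * κ * Y := by
        have h3 : ∫ u in (Y - 1 / 4)..(Y + 1 / 4), ‖Wn χ κ u‖ ≤
            ∫ u in (Y - 1 / 4)..(Y + 1 / 4), 8 * κ * Y := by
          refine intervalIntegral.integral_mono_on (by linarith) (hI χ) intervalIntegrable_const
            fun u hu => ?_
          rw [Wn_eq_WM χ hM hu.2]
          exact Wn_triv χ (by linarith) hκ hκ4 hu.1 hu.2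
        refine h3.trans (le_of_eq ?_)
        rw [intervalIntegral.integral_const, smul_eq_mul]
        ring
      have h3 : 1 / (Nat.totient f : ℝ) ≤ 2 * Y * (1 / f) :=
        inv_phi_le (by linarith) (by omega) hf.2
      have h4 : 1 / (f : ℝ) ≤ 1 / Y ^ (C₁ + A + 3) := one_div_le_one_div_of_le (by positivity) hf1.le
      have h5 : 0 ≤ II Y κ χ := intervalIntegral.integral_nonneg (by linarith) fun _ _ => norm_nonneg _
      calc 1 / (Nat.totient f : ℝ) * II Y κ χ ≤ (2 * Y * (1 / Y ^ (C₁ + A + 3))) * (4 * κ * Y) := by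
            refine mul_le_mul (h3.trans ?_) h2 h5 (by positivity)
            exact mul_le_mul_of_nonneg_left h4 (by linarith)
        _ = _ := by ring
    refine (sum_le_sum h1).trans ?_
    rw [← sum_mul]
    have h2 : ∑ f ∈ Icc 2 F, ((prm f (fun χ => ¬ Good Y B0 χ)).card : ℝ) ≤ Y ^ C₁ := by
      refine le_trans (sum_le_sum_of_subset_of_nonneg (Icc_subset_Icc_left (by norm_num)) ?_)
        (hY₂ Y hYY₂)
      intro _ _ _
      positivity
    calc (∑ f ∈ Icc 2 F, ((prm f (fun χ => ¬ Good Y B0 χ)).card : ℝ)) *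
          (8 * κ * Y ^ 2 / Y ^ (C₁ + A + 3))
        ≤ Y ^ C₁ * (8 * κ * Y ^ 2 / Y ^ (C₁ + A + 3)) :=
          mul_le_mul_of_nonneg_right h2 (by positivity)
      _ = κ / Y ^ A * (8 / Y) := by
          field_simp
          ring
      _ ≤ κ / Y ^ A * (1 / 2) := by
          refine mul_le_mul_of_nonneg_left ?_ (by positivity)
          rw [div_le_div_iff₀ hY0 (by norm_num)]
          linarith
      _ = _ := by ring
  have hsplit : ∑ f ∈ Icc 2 F, (1 / (Nat.totient f : ℝ)) * ∑ χ ∈ prm f (fun _ => True), II Y κ χ =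
      ∑ f ∈ Icc 2 F, (1 / (Nat.totient f : ℝ)) * ∑ χ ∈ prm f (Good Y B0), II Y κ χ +
      ∑ f ∈ Icc 2 F, (1 / (Nat.totient f : ℝ)) * ∑ χ ∈ prm f (fun χ => ¬ Good Y B0 χ), II Y κ χ := by
    rw [← sum_add_distrib]
    refine sum_congr rfl fun f _ => ?_
    rw [prm_split f (Good Y B0), mul_add]
  show ∑ f ∈ Icc 2 F, (1 / (Nat.totient f : ℝ)) * ∑ χ ∈ prm f (fun _ => True), II Y κ χ ≤ _
  rw [hsplit]
  linarith

end Pool.Agent.L7h26.BW
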