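import Pool.Agent.L7h26.BW.Chs
import Pool.Agent.L7h76.BW.Msq
import Pool.Agent.Q257.KS.HB

/-!
# Project BW: mean squares of the windows (`S_PSV → S_TUX → S_MSP → S_MSQ → S_WINQ`)
-/

set_option autoImplicit false

namespace Pool.Agent.L7h26.BW

open Finset Filter MeasureTheory
open Pool.Agent.H376R2.MR (ch DP FK w)
open Pool.Agent.Q240.KS (cf sp ty ed DY zY pic)
open Pool.Agent.Q95.KS (aY)
open Pool.Agent.L7h88.BW
open Pool.Agent.L7h76.BW (mem_FK poly_exp)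

lemma DY_card_le {Y : ℝ} (hY : 2 ≤ Y) : ((DY Y).card : ℝ) ≤ (41 * Y) ^ 10 := by
  refine (Pool.Agent.Q95.KS.DY_card Y).trans (pow_le_pow_left₀ (Nat.cast_nonneg _) ?_ 10)
  push_cast
  have := Nat.floor_le (show 0 ≤ 20 * (Y + 1) by linarith)
  linarith

lemma AX_sq_le (Y : ℝ) {f : ℕ} (χ : DirichletCharacter ℂ f) (k : ℤ) : ‖AX χ Y k‖ ^ 2 ≤
    961 * (DY Y).card * ∑ d ∈ DY Y, ‖∏ i, PX χ (zY Y) (ty i) (d i) k‖ ^ 2 := by
  have h1 : ‖AX χ Y k‖ ≤ ∑ d ∈ DY Y, 31 * ‖∏ i, PX χ (zY Y) (ty i) (d i) k‖ := by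
    unfold AX
    refine (norm_sum_le _ _).trans (sum_le_sum fun d _ => ?_)
    rw [norm_mul]
    apply mul_le_mul_of_nonneg_right _ (norm_nonneg _)
    have := Pool.Agent.Q95.KS.ed_bound d
    rw [Complex.norm_intCast]
    exact this
  calc ‖AX χ Y k‖ ^ 2 ≤ (∑ d ∈ DY Y, 31 * ‖∏ i, PX χ (zY Y) (ty i) (d i) k‖) ^ 2 :=
        pow_le_pow_left₀ (norm_nonneg _) h1 2
    _ ≤ (DY Y).card * ∑ d ∈ DY Y, (31 * ‖∏ i, PX χ (zY Y) (ty i) (d i) k‖) ^ 2 :=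
        sq_sum_le_card_mul_sum_sq
    _ = 961 * (DY Y).card * ∑ d ∈ DY Y, ‖∏ i, PX χ (zY Y) (ty i) (d i) k‖ ^ 2 := by
        simp only [mul_pow, ← mul_sum]
        ring

/-- mean square over all primitive characters and many frequencies -/
lemma MS (hMSP : S_MSP) : ∃ (C : ℕ) (Y₀ : ℝ), ∀ Y : ℝ, Y₀ ≤ Y → ∀ K : ℕ, 1 ≤ K →
    ∀ P : ∀ f : ℕ, DirichletCharacter ℂ f → Prop,
    ∑ f ∈ Icc 2 (Fc Y), ∑ χ ∈ prm f (P f), ∑ k ∈ FK K, ‖AX χ Y k‖ ^ 2 ≤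
      Y ^ C * (1 + Real.exp (-(0.98 * Y)) * K) := by
  obtain ⟨C₀, hC₀, hM⟩ := hMSP
  refine ⟨C₀ + 21, max 2 (961 * 3 * C₀ * 41 ^ (20 + C₀)), fun Y hY K hK P => ?_⟩
  have hY2 : 2 ≤ Y := (le_max_left _ _).trans hY
  have hYc : 961 * 3 * C₀ * 41 ^ (20 + C₀) ≤ Y := (le_max_right _ _).trans hY
  have hY0 : 0 < Y := by linarith
  have hF1 : 1 ≤ Fc Y := Pool.Agent.L7h76.BW.Fc_pos hY0.le
  have hF2 : (Fc Y : ℝ) ^ 2 ≤ Real.exp (0.02 * Y) := by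
    calc (Fc Y : ℝ) ^ 2 ≤ Real.exp (Y / 100) ^ 2 :=
          pow_le_pow_left₀ (Nat.cast_nonneg _) (Pool.Agent.L7h76.BW.Fc_le Y) 2
      _ = Real.exp (0.02 * Y) := by
        rw [← Real.exp_nat_mul]
        congr 1
        push_cast
        ring
  have hd : ∀ d ∈ DY Y, ∑ f ∈ Icc 2 (Fc Y), ∑ χ ∈ prm f (P f), ∑ k ∈ FK K,
      ‖∏ i, PX χ (zY Y) (ty i) (d i) k‖ ^ 2 ≤
        3 * C₀ * (41 * Y) ^ C₀ * (1 + Real.exp (-(0.98 * Y)) * K) := by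
    intro d hd
    have h1 : |(∑ i, (d i : ℝ)) / 20 - Y| ≤ 1 := by
      unfold DY at hd
      exact (mem_filter.1 hd).2
    rw [abs_le] at h1
    have h2 : ∑ f ∈ Icc 2 (Fc Y), ∑ χ ∈ prm f (P f), ∑ k ∈ FK K,
        ‖∏ i, PX χ (zY Y) (ty i) (d i) k‖ ^ 2 ≤
        ∑ f ∈ Icc 1 (Fc Y), ∑ χ ∈ prm f (fun _ => True), ∑ k ∈ FK K,
        ‖∏ i, PX χ (zY Y) (ty i) (d i) k‖ ^ 2 := by
      refine (sum_le_sum fun f _ => ?_).trans
        (sum_le_sum_of_subset_of_nonneg (Icc_subset_Icc_left (by norm_num)) fun f _ _ => ?_)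
      · refine sum_le_sum_of_subset_of_nonneg ?_ fun χ _ _ => sum_nonneg fun k _ => by positivity
        intro χ hχ
        rw [Pool.Agent.L7h76.BW.mem_prm] at hχ ⊢
        exact ⟨hχ.1, trivial⟩
      · exact sum_nonneg fun χ _ => sum_nonneg fun k _ => by positivity
    refine h2.trans ((hM (Fc Y) K (zY Y) ty d hF1 hK).trans ?_)
    have hs0 : 0 ≤ ∑ i, (d i : ℝ) := sum_nonneg fun _ _ => Nat.cast_nonneg _
    have h3 : 1 + ∑ i, (d i : ℝ) ≤ 41 * Y := by linarith [h1.2]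
    have h4 : Real.exp (-((∑ i, (d i : ℝ)) / 20)) ≤ 3 * Real.exp (-Y) := by
      have e1 : Real.exp (-((∑ i, (d i : ℝ)) / 20)) ≤ Real.exp (1 + -Y) :=
        Real.exp_le_exp.2 (by linarith [h1.1])
      rw [Real.exp_add] at e1
      have e2 : Real.exp 1 ≤ 3 := by linarith [Real.exp_one_lt_d9]
      exact e1.trans (mul_le_mul_of_nonneg_right e2 (Real.exp_pos _).le)
    have h5 : Real.exp (0.02 * Y) * Real.exp (-Y) = Real.exp (-(0.98 * Y)) := by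
      rw [← Real.exp_add]; congr 1; ring
    have hK0 : (0 : ℝ) ≤ K := Nat.cast_nonneg _
    calc (C₀ : ℝ) * (1 + ∑ i, (d i : ℝ)) ^ C₀ *
          (1 + (Fc Y : ℝ) ^ 2 * K * Real.exp (-((∑ i, (d i : ℝ)) / 20)))
        ≤ (C₀ : ℝ) * (41 * Y) ^ C₀ * (1 + Real.exp (0.02 * Y) * K * (3 * Real.exp (-Y))) := by
          gcongr
      _ = (C₀ : ℝ) * (41 * Y) ^ C₀ * (1 + 3 * ((Real.exp (0.02 * Y) * Real.exp (-Y)) * K)) := by ring
      _ = (C₀ : ℝ) * (41 * Y) ^ C₀ * (1 + 3 * (Real.exp (-(0.98 * Y)) * K)) := by rw [h5]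
      _ ≤ (C₀ : ℝ) * (41 * Y) ^ C₀ * (3 * (1 + Real.exp (-(0.98 * Y)) * K)) := by
          refine mul_le_mul_of_nonneg_left ?_ (by positivity)
          linarith
      _ = _ := by ring
  calc ∑ f ∈ Icc 2 (Fc Y), ∑ χ ∈ prm f (P f), ∑ k ∈ FK K, ‖AX χ Y k‖ ^ 2
      ≤ ∑ f ∈ Icc 2 (Fc Y), ∑ χ ∈ prm f (P f), ∑ k ∈ FK K,
        961 * (DY Y).card * ∑ d ∈ DY Y, ‖∏ i, PX χ (zY Y) (ty i) (d i) k‖ ^ 2 :=
        sum_le_sum fun f _ => sum_le_sum fun χ _ => sum_le_sum fun k _ => AX_sq_le Y χ k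
    _ = 961 * (DY Y).card * ∑ d ∈ DY Y, ∑ f ∈ Icc 2 (Fc Y), ∑ χ ∈ prm f (P f),
        ∑ k ∈ FK K, ‖∏ i, PX χ (zY Y) (ty i) (d i) k‖ ^ 2 := by
        simp only [← mul_sum]
        congr 1
        refine Eq.symm ?_
        refine sum_comm.trans (sum_congr rfl fun f _ => ?_)
        refine sum_comm.trans (sum_congr rfl fun χ _ => ?_)
        exact sum_comm
    _ ≤ 961 * (DY Y).card * ∑ d ∈ DY Y, 3 * C₀ * (41 * Y) ^ C₀ * (1 + Real.exp (-(0.98 * Y)) * K) := by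
        apply mul_le_mul_of_nonneg_left _ (by positivity)
        exact sum_le_sum fun d hd' => hd d hd'
    _ = 961 * (DY Y).card ^ 2 * (3 * C₀ * (41 * Y) ^ C₀ * (1 + Real.exp (-(0.98 * Y)) * K)) := by
        rw [sum_const, nsmul_eq_mul]
        ring
    _ ≤ 961 * ((41 * Y) ^ 10) ^ 2 * (3 * C₀ * (41 * Y) ^ C₀ * (1 + Real.exp (-(0.98 * Y)) * K)) := by
        apply mul_le_mul_of_nonneg_right _ (by positivity)
        apply mul_le_mul_of_nonneg_left _ (by norm_num)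
        exact pow_le_pow_left₀ (Nat.cast_nonneg _) (DY_card_le hY2) 2
    _ = (961 * 3 * C₀ * 41 ^ (20 + C₀)) * Y ^ (C₀ + 20) * (1 + Real.exp (-(0.98 * Y)) * K) := by
        ring
    _ ≤ Y * Y ^ (C₀ + 20) * (1 + Real.exp (-(0.98 * Y)) * K) := by
        gcongr
    _ = Y ^ (C₀ + 21) * (1 + Real.exp (-(0.98 * Y)) * K) := by ring

/-! ### the multiplier -/

lemma gk_nonneg {δ : ℝ} (hδ : 0 ≤ δ) (k : ℤ) : 0 ≤ gk δ k := by
  unfold gk
  split_ifs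
  · exact div_nonneg hδ (by positivity)
  · exact div_nonneg (abs_nonneg _) (mul_nonneg Real.pi_pos.le (abs_nonneg _))

lemma gk_le1 {δ : ℝ} (hδ : 0 ≤ δ) (k : ℤ) : gk δ k ≤ δ / (2 * Real.pi) := by
  unfold gk
  split_ifs with h
  · exact le_rfl
  · have hk : 0 < |(k : ℝ)| := abs_pos.2 (by exact_mod_cast h)
    rw [div_le_div_iff₀ (mul_pos Real.pi_pos hk) (by positivity)]
    have h1 : |Real.sin (k * δ / 2)| ≤ |(k : ℝ) * δ / 2| := Real.abs_sin_le_abs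
    have h2 : |(k : ℝ) * δ / 2| = |(k : ℝ)| * δ / 2 := by
      rw [abs_div, abs_mul, abs_of_nonneg hδ, abs_of_pos (by norm_num : (0 : ℝ) < 2)]
    rw [h2] at h1
    calc |Real.sin (k * δ / 2)| * (2 * Real.pi) ≤ |(k : ℝ)| * δ / 2 * (2 * Real.pi) :=
          mul_le_mul_of_nonneg_right h1 (by positivity)
      _ = δ * (Real.pi * |(k : ℝ)|) := by ring

lemma gk_le2 {δ : ℝ} {k : ℤ} (hk : k ≠ 0) : gk δ k ≤ 1 / |(k : ℝ)| := by
  unfold gk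
  rw [if_neg hk]
  have hk0 : 0 < |(k : ℝ)| := abs_pos.2 (by exact_mod_cast hk)
  rw [div_le_div_iff₀ (mul_pos Real.pi_pos hk0) hk0]
  have h1 := Real.abs_sin_le_one (k * δ / 2)
  have h2 := Real.pi_gt_three
  nlinarith

/-! ### Parseval -/

lemma psv_app (hP : S_PSV) (hT : S_TUX) {Y κ : ℝ} (hY : 2 ≤ Y) (hκ : 0 < κ) (hκ4 : κ ≤ 1 / 4) {q : ℕ}
    (χ : DirichletCharacter ℂ q) : ∃ T : ℝ, HasSum (fun k : ℤ => gk κ k ^ 2 * ‖AX χ Y k‖ ^ 2) T ∧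
      ∫ u in (Y - 1 / 4)..(Y + 1 / 4), ‖Wn χ κ u‖ ^ 2 ≤ 2 * Real.pi * T := by
  classical
  set M : ℕ := ⌊Real.exp (Y + 3 / 2)⌋₊ with hM
  set s : Finset ℕ := (Icc 1 M).filter (fun n : ℕ => |Real.log n - Y| ≤ 3 / 2) with hs
  set b : ℕ → ℂ := fun n => ((aY Y n : ℝ) : ℂ) * χ (n : ZMod q) with hb
  have hpi := Real.pi_gt_three
  have hb0 : ∀ n : ℕ, b n ≠ 0 → |Real.log n - Y| ≤ 3 / 2 := by
    intro n hn
    by_contra hcon
    apply hn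
    show ((aY Y n : ℝ) : ℂ) * χ (n : ZMod q) = 0
    rw [Pool.Agent.Q95.KS.aY_zero (not_le.1 hcon), Complex.ofReal_zero, zero_mul]
  have h1 := hP s b (Y - 3) κ hκ (by linarith) (by
    intro n hn
    rw [hs, mem_filter, mem_Icc, abs_le] at hn
    exact ⟨hn.1.1, by linarith [hn.2.1], by linarith [hn.2.2]⟩)
  have h2 : ∀ k : ℤ, DP s b k = AX χ Y k := by
    intro k
    rw [hT]
    unfold DP
    rw [hs]
    refine (sum_filter_of_ne fun n _ hn => ?_).trans (sum_congr rfl fun n _ => rfl)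
    exact hb0 n (left_ne_zero_of_mul hn)
  simp only [h2] at h1
  refine ⟨_, h1, ?_⟩
  have h3 : ∀ u : ℝ, ∑ n ∈ s.filter (fun n : ℕ => u < Real.log n ∧ Real.log n ≤ u + κ), b n =
      ∑ n ∈ win M u κ, b n := by
    intro u
    have e : s.filter (fun n : ℕ => u < Real.log n ∧ Real.log n ≤ u + κ) =
        (win M u κ).filter (fun n : ℕ => |Real.log n - Y| ≤ 3 / 2) := by
      unfold win
      rw [hs, filter_filter, filter_filter]
      refine filter_congr fun n _ => ?_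
      exact and_comm
    rw [e]
    exact sum_filter_of_ne fun n _ hn => hb0 n hn
  simp only [h3]
  have e1 : 2 * Real.pi * (1 / (2 * Real.pi) * ∫ u in (Y - 3)..(Y - 3 + 2 * Real.pi),
      ‖∑ n ∈ win M u κ, b n‖ ^ 2) = ∫ u in (Y - 3)..(Y - 3 + 2 * Real.pi),
      ‖∑ n ∈ win M u κ, b n‖ ^ 2 := by
    field_simp
  rw [e1]
  have h4 : ∫ u in (Y - 1 / 4)..(Y + 1 / 4), ‖Wn χ κ u‖ ^ 2 =
      ∫ u in (Y - 1 / 4)..(Y + 1 / 4), ‖∑ n ∈ win M u κ, b n‖ ^ 2 := by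
    refine intervalIntegral.integral_congr fun u hu => ?_
    rw [Set.uIcc_of_le (by linarith)] at hu
    show ‖Wn χ κ u‖ ^ 2 = ‖∑ n ∈ win M u κ, b n‖ ^ 2
    have hMu : Real.exp (u + κ) ≤ M := by
      have e2 : Real.exp (u + κ) ≤ Real.exp (Y + 1 / 2) := Real.exp_le_exp.2 (by linarith [hu.2])
      have e3 : Real.exp (Y + 3 / 2) = Real.exp (Y + 1 / 2) * Real.exp 1 := by
        rw [← Real.exp_add]; congr 1; ring
      have e4 : 2 ≤ Real.exp 1 := by linarith [Real.add_one_le_exp (1 : ℝ)]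
      have e5 : 2 ≤ Real.exp (Y + 1 / 2) := by linarith [Real.add_one_le_exp (Y + 1 / 2)]
      have e6 : Real.exp (Y + 3 / 2) - 1 ≤ (M : ℝ) := (Nat.sub_one_lt_floor _).le
      rw [e3] at e6
      nlinarith
    rw [Wn_eq χ hMu]
    congr 2
    refine sum_congr rfl fun n hn => ?_
    rw [mem_win] at hn
    have e7 : aY Y n = ArithmeticFunction.vonMangoldt n / n :=
      Pool.Agent.Q95.KS.aY_eq Pool.Agent.Q257.KS.hb hY hn.1.1 (by
        rw [abs_le]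
        constructor
        · linarith [hn.2.1, hu.1]
        · linarith [hn.2.2, hu.2])
    show _ = ((aY Y n : ℝ) : ℂ) * χ (n : ZMod q)
    rw [e7]
  rw [h4]
  refine intervalIntegral.integral_mono_interval (by linarith) (by linarith) (by linarith) ?_
    (intble_win_sq b κ M _ _)
  exact Filter.Eventually.of_forall fun u => by positivity

/-! ### dyadic blocks of frequencies -/

lemma FK_mono {K L : ℕ} (h : K ≤ L) : FK K ⊆ FK L := by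
  intro k hk
  rw [mem_FK] at hk ⊢
  exact hk.trans_le (by exact_mod_cast h)

lemma blocks (g : ℤ → ℝ) (K : ℕ) (R : ℝ) (hR : ∀ j : ℕ,
    ∑ k ∈ FK (2 ^ (j + 1) * K) \ FK (2 ^ j * K), g k ≤ R * (1 / 2) ^ j) (J : ℕ) :
    ∑ k ∈ FK (2 ^ J * K), g k ≤ ∑ k ∈ FK K, g k + R * ∑ j ∈ range J, (1 / 2 : ℝ) ^ j := by
  induction J with
  | zero => simp
  | succ J ih =>
    have h1 : FK (2 ^ J * K) ⊆ FK (2 ^ (J + 1) * K) :=
      FK_mono (Nat.mul_le_mul_right _ (Nat.pow_le_pow_right (by norm_num) (Nat.le_succ _)))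
    rw [← sum_sdiff h1, sum_range_succ, mul_add]
    linarith [hR J]

/-- **S_WINQ.** -/
theorem s_WINQ (hP : S_PSV) (hT : S_TUX) (hM : S_MSP) (hQ : S_MSQ) : S_WINQ := by
  intro A
  obtain ⟨B0, Y₁, hY₁⟩ := hQ (A + 1)
  obtain ⟨C, Y₂, hY₂⟩ := MS hM
  obtain ⟨Y₃, hY₃⟩ := poly_exp 80 (C + A) (show (0 : ℝ) < 0.002 by norm_num)
  refine ⟨B0, max (max Y₁ Y₂) (max Y₃ 2), fun Y hY κ hκ hκ4 => ?_⟩
  have hYY₁ : Y₁ ≤ Y := (le_max_left _ _).trans ((le_max_left _ _).trans hY)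
  have hYY₂ : Y₂ ≤ Y := (le_max_right _ _).trans ((le_max_left _ _).trans hY)
  have hYY₃ : Y₃ ≤ Y := (le_max_left _ _).trans ((le_max_right _ _).trans hY)
  have hY2 : 2 ≤ Y := (le_max_right _ _).trans ((le_max_right _ _).trans hY)
  have hκ0 : 0 < κ := (Real.exp_pos _).trans_le hκ
  have hY0 : (0 : ℝ) < Y := by linarith
  have hpi3 := Real.pi_gt_three
  have hpi4 := Real.pi_lt_d2
  set K1 : ℕ := Kc Y + 1 with hK1
  have hK1e : Real.exp (0.505 * Y) ≤ K1 := by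
    have := (Nat.lt_floor_add_one (Real.exp (0.505 * Y))).le
    rw [hK1]
    push_cast
    exact this
  have hK10 : (0 : ℝ) < K1 := (Real.exp_pos _).trans_le hK1e
  -- Parseval for all characters
  have hTT : ∀ (f : ℕ) (χ : DirichletCharacter ℂ f), ∃ T : ℝ,
      HasSum (fun k : ℤ => gk κ k ^ 2 * ‖AX χ Y k‖ ^ 2) T ∧
      ∫ u in (Y - 1 / 4)..(Y + 1 / 4), ‖Wn χ κ u‖ ^ 2 ≤ 2 * Real.pi * T :=
    fun f χ => psv_app hP hT hY2 hκ0 hκ4 χ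
  choose T hT1 hT2 using hTT
  set S : ℤ → ℝ := fun k => ∑ f ∈ Icc 2 (Fc Y), ∑ χ ∈ prm f (Good Y B0), ‖AX χ Y k‖ ^ 2 with hS
  have hS0 : ∀ k, 0 ≤ S k := fun k => sum_nonneg fun _ _ => sum_nonneg fun _ _ => by positivity
  have hsum : HasSum (fun k : ℤ => gk κ k ^ 2 * S k)
      (∑ f ∈ Icc 2 (Fc Y), ∑ χ ∈ prm f (Good Y B0), T f χ) := by
    have h1 : HasSum (fun k : ℤ => ∑ f ∈ Icc 2 (Fc Y), ∑ χ ∈ prm f (Good Y B0),
        gk κ k ^ 2 * ‖AX χ Y k‖ ^ 2) (∑ f ∈ Icc 2 (Fc Y), ∑ χ ∈ prm f (Good Y B0), T f χ) :=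
      hasSum_sum fun f _ => hasSum_sum fun χ _ => hT1 f χ
    have h2 : (fun k : ℤ => ∑ f ∈ Icc 2 (Fc Y), ∑ χ ∈ prm f (Good Y B0),
        gk κ k ^ 2 * ‖AX χ Y k‖ ^ 2) = fun k : ℤ => gk κ k ^ 2 * S k := by
      funext k
      rw [hS, mul_sum]
      exact sum_congr rfl fun f _ => (mul_sum _ _ _).symm
    rw [h2] at h1
    exact h1
  have hSK : ∀ K : ℕ, ∑ k ∈ FK K, S k =
      ∑ f ∈ Icc 2 (Fc Y), ∑ χ ∈ prm f (Good Y B0), ∑ k ∈ FK K, ‖AX χ Y k‖ ^ 2 := by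
    intro K
    rw [hS]
    refine sum_comm.trans (sum_congr rfl fun f _ => ?_)
    exact sum_comm
  -- the low frequencies
  have hlow : ∑ k ∈ FK K1, gk κ k ^ 2 * S k ≤ (κ / (2 * Real.pi)) ^ 2 * (1 / Y ^ (A + 1)) := by
    have h1 : ∑ k ∈ FK K1, gk κ k ^ 2 * S k ≤ ∑ k ∈ FK K1, (κ / (2 * Real.pi)) ^ 2 * S k := by
      refine sum_le_sum fun k _ => mul_le_mul_of_nonneg_right ?_ (hS0 k)
      exact pow_le_pow_left₀ (gk_nonneg hκ0.le k) (gk_le1 hκ0.le k) 2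
    refine h1.trans ?_
    rw [← mul_sum, hSK]
    exact mul_le_mul_of_nonneg_left (hY₁ Y hYY₁) (by positivity)
  -- the high frequencies
  have hexp1 : 1 / (K1 : ℝ) ^ 2 ≤ Real.exp (-(1.01 * Y)) := by
    rw [one_div, Real.exp_neg]
    refine inv_anti₀ (Real.exp_pos _) ?_
    calc Real.exp (1.01 * Y) = Real.exp (0.505 * Y) ^ 2 := by
          rw [← Real.exp_nat_mul]; congr 1; push_cast; ring
      _ ≤ (K1 : ℝ) ^ 2 := pow_le_pow_left₀ (Real.exp_pos _).le hK1e 2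
  have hexp2 : Real.exp (-(0.98 * Y)) / K1 ≤ Real.exp (-(1.01 * Y)) := by
    rw [div_le_iff₀ hK10]
    calc Real.exp (-(0.98 * Y)) ≤ Real.exp (-(1.01 * Y) + 0.505 * Y) :=
          Real.exp_le_exp.2 (by linarith)
      _ = Real.exp (-(1.01 * Y)) * Real.exp (0.505 * Y) := Real.exp_add _ _
      _ ≤ _ := mul_le_mul_of_nonneg_left hK1e (Real.exp_pos _).le
  have hblock : ∀ j : ℕ, ∑ k ∈ FK (2 ^ (j + 1) * K1) \ FK (2 ^ j * K1), gk κ k ^ 2 * S k ≤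
      (3 * Y ^ C * Real.exp (-(1.01 * Y))) * (1 / 2) ^ j := by
    intro j
    have hj0 : (0 : ℝ) < 2 ^ j := by positivity
    have h1 : ∀ k ∈ FK (2 ^ (j + 1) * K1) \ FK (2 ^ j * K1), gk κ k ^ 2 * S k ≤
        (1 / (2 ^ j * (K1 : ℝ)) ^ 2) * S k := by
      intro k hk
      rw [Finset.mem_sdiff, mem_FK, mem_FK, not_lt] at hk
      have h2 : (2 : ℝ) ^ j * K1 ≤ |(k : ℝ)| := by exact_mod_cast hk.2
      have h3 : k ≠ 0 := by
        rintro rfl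
        simp only [Int.cast_zero, abs_zero] at h2
        have : 0 < (2 : ℝ) ^ j * K1 := by positivity
        linarith
      have h4 : gk κ k ≤ 1 / (2 ^ j * (K1 : ℝ)) :=
        (gk_le2 h3).trans (one_div_le_one_div_of_le (by positivity) h2)
      refine mul_le_mul_of_nonneg_right ?_ (hS0 k)
      calc gk κ k ^ 2 ≤ (1 / (2 ^ j * (K1 : ℝ))) ^ 2 := pow_le_pow_left₀ (gk_nonneg hκ0.le k) h4 2
        _ = _ := by rw [div_pow, one_pow]
    refine (sum_le_sum h1).trans ?_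
    rw [← mul_sum]
    have h2 : ∑ k ∈ FK (2 ^ (j + 1) * K1) \ FK (2 ^ j * K1), S k ≤
        Y ^ C * (1 + Real.exp (-(0.98 * Y)) * ((2 ^ (j + 1) * K1 : ℕ) : ℝ)) := by
      refine (sum_le_sum_of_subset_of_nonneg sdiff_subset fun k _ _ => hS0 k).trans ?_
      rw [hSK]
      refine hY₂ Y hYY₂ _ ?_ (fun f => Good Y B0)
      exact Nat.mul_pos (by positivity) (Nat.succ_pos _)
    have h3 : (1 / (2 ^ j * (K1 : ℝ)) ^ 2) * (1 + Real.exp (-(0.98 * Y)) * ((2 ^ (j + 1) * K1 : ℕ) : ℝ)) =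
        (1 / (K1 : ℝ) ^ 2) * (1 / 2) ^ j * (1 / 2) ^ j +
          2 * (Real.exp (-(0.98 * Y)) / K1) * (1 / 2) ^ j := by
      push_cast
      rw [one_div_pow]
      field_simp
      ring
    calc (1 / (2 ^ j * (K1 : ℝ)) ^ 2) * ∑ k ∈ FK (2 ^ (j + 1) * K1) \ FK (2 ^ j * K1), S k
        ≤ (1 / (2 ^ j * (K1 : ℝ)) ^ 2) *
          (Y ^ C * (1 + Real.exp (-(0.98 * Y)) * ((2 ^ (j + 1) * K1 : ℕ) : ℝ))) :=
          mul_le_mul_of_nonneg_left h2 (by positivity)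
      _ = Y ^ C * ((1 / (2 ^ j * (K1 : ℝ)) ^ 2) *
          (1 + Real.exp (-(0.98 * Y)) * ((2 ^ (j + 1) * K1 : ℕ) : ℝ))) := by ring
      _ = Y ^ C * ((1 / (K1 : ℝ) ^ 2) * (1 / 2) ^ j * (1 / 2) ^ j +
          2 * (Real.exp (-(0.98 * Y)) / K1) * (1 / 2) ^ j) := by rw [h3]
      _ ≤ Y ^ C * (Real.exp (-(1.01 * Y)) * (1 / 2) ^ j * 1 +
          2 * Real.exp (-(1.01 * Y)) * (1 / 2) ^ j) := by
          have h4 : (1 / 2 : ℝ) ^ j ≤ 1 := pow_le_one₀ (by norm_num) (by norm_num)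
          gcongr
      _ = _ := by ring
  have htot : ∑ f ∈ Icc 2 (Fc Y), ∑ χ ∈ prm f (Good Y B0), T f χ ≤
      (κ / (2 * Real.pi)) ^ 2 * (1 / Y ^ (A + 1)) + 6 * Y ^ C * Real.exp (-(1.01 * Y)) := by
    refine hasSum_le_of_sum_le hsum fun s => ?_
    obtain ⟨J, hJ⟩ : ∃ J : ℕ, s ⊆ FK (2 ^ J * K1) := by
      obtain ⟨J, hJ⟩ : ∃ J : ℕ, ∀ k ∈ s, |k| < J := by
        refine ⟨(s.sup fun k => k.natAbs) + 1, fun k hk => ?_⟩
        have h1 : k.natAbs ≤ s.sup fun k => k.natAbs := Finset.le_sup (f := fun k : ℤ => k.natAbs) hk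
        rw [Int.abs_eq_natAbs]
        exact_mod_cast Nat.lt_succ_of_le h1
      refine ⟨J, fun k hk => ?_⟩
      rw [mem_FK]
      refine (hJ k hk).trans_le ?_
      have h1 : J ≤ 2 ^ J * K1 := by
        have := (Nat.lt_two_pow_self (n := J)).le
        have h2 : 1 ≤ K1 := Nat.succ_pos _
        nlinarith
      exact_mod_cast h1
    have h1 : ∑ k ∈ s, gk κ k ^ 2 * S k ≤ ∑ k ∈ FK (2 ^ J * K1), gk κ k ^ 2 * S k :=
      sum_le_sum_of_subset_of_nonneg hJ fun k _ _ => mul_nonneg (by positivity) (hS0 k)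
    refine h1.trans ((blocks _ K1 _ hblock J).trans ?_)
    refine add_le_add hlow ?_
    have h2 : ∑ j ∈ range J, (1 / 2 : ℝ) ^ j ≤ 2 := sum_geometric_two_le J
    calc 3 * Y ^ C * Real.exp (-(1.01 * Y)) * ∑ j ∈ range J, (1 / 2 : ℝ) ^ j
        ≤ 3 * Y ^ C * Real.exp (-(1.01 * Y)) * 2 := mul_le_mul_of_nonneg_left h2 (by positivity)
      _ = _ := by ring
  -- the end
  have hfin : ∑ f ∈ Icc 2 (Fc Y), ∑ χ ∈ prm f (Good Y B0),
      ∫ u in (Y - 1 / 4)..(Y + 1 / 4), ‖Wn χ κ u‖ ^ 2 ≤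
      2 * Real.pi * ∑ f ∈ Icc 2 (Fc Y), ∑ χ ∈ prm f (Good Y B0), T f χ := by
    rw [mul_sum]
    refine sum_le_sum fun f _ => ?_
    rw [mul_sum]
    exact sum_le_sum fun χ _ => hT2 f χ
  refine hfin.trans ((mul_le_mul_of_nonneg_left htot (by positivity)).trans ?_)
  have hA : 2 * Real.pi * ((κ / (2 * Real.pi)) ^ 2 * (1 / Y ^ (A + 1))) ≤ κ ^ 2 / Y ^ A / 2 := by
    have e1 : 2 * Real.pi * ((κ / (2 * Real.pi)) ^ 2 * (1 / Y ^ (A + 1))) =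
        κ ^ 2 / Y ^ A * (1 / (2 * Real.pi * Y)) := by
      field_simp
      ring
    have e2 : 1 / (2 * Real.pi * Y) ≤ 1 / 2 := by
      refine one_div_le_one_div_of_le (by norm_num) ?_
      nlinarith
    rw [e1]
    refine (mul_le_mul_of_nonneg_left e2 (by positivity)).trans (le_of_eq (by ring))
  have hB : 2 * Real.pi * (6 * Y ^ C * Real.exp (-(1.01 * Y))) ≤ κ ^ 2 / Y ^ A / 2 := by
    have h1 := hY₃ Y hYY₃
    have h2 : Real.exp (-(1.008 * Y)) ≤ κ ^ 2 := by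
      calc Real.exp (-(1.008 * Y)) = Real.exp (-(0.504 * Y)) ^ 2 := by
            rw [← Real.exp_nat_mul]; congr 1; push_cast; ring
        _ ≤ κ ^ 2 := pow_le_pow_left₀ (Real.exp_pos _).le hκ 2
    have h3 : Real.exp (-(1.01 * Y)) * Real.exp (0.002 * Y) = Real.exp (-(1.008 * Y)) := by
      rw [← Real.exp_add]; congr 1; ring
    rw [div_div, le_div_iff₀ (by positivity)]
    calc 2 * Real.pi * (6 * Y ^ C * Real.exp (-(1.01 * Y))) * (Y ^ A * 2)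
        = (24 * Real.pi) * Y ^ (C + A) * Real.exp (-(1.01 * Y)) := by ring
      _ ≤ 80 * Y ^ (C + A) * Real.exp (-(1.01 * Y)) := by
          gcongr
          linarith
      _ ≤ Real.exp (0.002 * Y) * Real.exp (-(1.01 * Y)) :=
          mul_le_mul_of_nonneg_right h1 (Real.exp_pos _).le
      _ = Real.exp (-(1.008 * Y)) := by rw [mul_comm, h3]
      _ ≤ κ ^ 2 := h2
  rw [mul_add]
  linarith

end Pool.Agent.L7h26.BW
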